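import Pool.Agent.Lib.MP_291637_al_h3.Cases
import Pool.Agent.Lib.MP_291637_al_h3.L11

/-!
# The certificate for the group of order 2048
-/

set_option autoImplicit false

namespace Pool.Agent.BG.Cert

/-- rule instances -/
def e0i : List Ins :=
  [.idr 0 1 2 [3] [] [true, true, true, true, true, true, true, false] 1,
   .idr 0 1 2 [3] [] [true, true, false, false, true, true, true, false] 263,
   .idr 0 1 2 [6] [] [false, true, false, true, true, true, true, true] 800,
   .idr 0 1 2 [6] [] [false, true, false, true, false, true, false, true] 2045,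
   .idr 0 1 2 [6] [] [false, true, false, false, true, true, true, true] 1130,
   .idr 0 1 2 [6] [] [false, true, false, false, false, true, false, true] 981,
   .idr 0 2 1 [3] [] [true, false, true, true, true, false, true, false] 1015,
   .idr 0 2 1 [3] [] [true, false, true, true, false, false, true, false] 1467,
   .idr 0 2 1 [3] [] [true, false, false, true, true, false, true, false] 808,
   .idr 0 2 1 [6] [] [false, true, false, true, false, true, false, true] 2045,
   .idr 0 2 1 [6] [] [false, false, false, true, false, false, false, true] 80,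
   .idr 0 1 2 [3] [0] [true, true, true, false, false, true, false, false] 1890,
   .idr 0 1 2 [3] [0] [true, true, false, true, true, true, true, false] 320,
   .idr 0 1 2 [3] [0] [true, true, false, true, false, true, false, false] 1944,
   .idr 0 1 2 [6] [0] [false, true, true, true, true, true, true, true] 5,
   .idr 0 1 2 [6] [0] [false, true, true, true, false, true, false, true] 1269,
   .idr 0 1 2 [6] [0] [false, true, true, false, true, true, true, true] 484,
   .idr 0 1 2 [6] [0] [false, true, false, true, true, true, true, true] 800,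
   .idr 0 1 2 [6] [0] [false, true, false, false, false, true, false, true] 981,
   .idr 0 1 2 [6] [0] [false, false, false, false, false, false, false, true] 1,
   .idr 0 2 1 [3] [0] [true, true, false, true, true, true, true, false] 363,
   .idr 0 2 1 [3] [0] [true, true, false, false, true, true, true, false] 632,
   .idr 0 2 1 [6] [0] [false, true, true, false, false, true, false, true] 808,
   .idr 0 2 1 [6] [0] [false, true, false, false, true, true, true, true] 1579,
   .idr 0 2 1 [6] [0] [false, false, false, true, true, false, true, true] 1901,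
   .idr 0 1 2 [3] [0, 1] [false, true, false, true, false, true, true, true] 1994,
   .idr 0 1 2 [3] [0, 1] [false, true, false, false, true, true, true, true] 1319,
   .idr 0 1 2 [6] [0, 1] [true, false, true, true, true, false, false, false] 1969,
   .idr 0 1 2 [6] [0, 1] [true, false, true, true, false, false, false, false] 1319,
   .idr 0 1 2 [6] [0, 1] [true, false, true, false, true, true, false, true] 548,
   .idr 0 1 2 [6] [0, 1] [true, false, true, false, true, true, false, false] 997,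
   .idr 0 1 2 [6] [0, 1] [true, false, true, false, true, false, false, false] 1994,
   .idr 0 1 2 [6] [0, 1] [true, false, true, false, false, false, false, false] 96,
   .idr 0 2 1 [3] [0, 1] [true, true, false, true, true, false, false, true] 372,
   .idr 0 2 1 [3] [0, 1] [true, true, false, true, true, false, false, false] 885,
   .idr 0 2 1 [3] [0, 1] [true, false, true, true, true, false, false, true] 219,
   .idr 0 2 1 [3] [0, 1] [true, false, true, true, false, false, false, true] 1443,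
   .idr 0 2 1 [3] [0, 1] [true, false, false, true, true, false, false, true] 156,
   .idr 0 2 1 [3] [0, 1] [true, false, false, true, false, false, true, true] 893,
   .idr 0 2 1 [3] [0, 1] [true, false, false, true, false, false, false, true] 1141,
   .idr 0 2 1 [3] [0, 1] [false, false, true, true, false, false, false, true] 129,
   .idr 0 2 1 [3] [0, 1] [false, false, false, true, true, false, true, true] 863,
   .idr 0 2 1 [3] [0, 1] [false, false, false, true, true, false, false, true] 925,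
   .idr 0 2 1 [3] [0, 1] [false, false, false, true, false, false, false, true] 521,
   .idr 0 2 1 [6] [0, 1] [true, true, true, false, true, false, true, true] 257,
   .idr 0 1 2 [3] [1, 0] [false, false, true, true, true, false, false, true] 1616,
   .idr 0 1 2 [3] [1, 0] [false, false, true, true, false, false, true, true] 156,
   .idr 0 1 2 [3] [1, 0] [false, false, true, true, false, false, false, true] 1156,
   .idr 0 1 2 [3] [1, 0] [false, false, true, false, true, false, false, true] 1561,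
   .idr 0 1 2 [3] [1, 0] [false, false, false, true, true, false, true, true] 1443,
   .idr 0 1 2 [3] [1, 0] [false, false, false, true, false, true, true, true] 988,
   .idr 0 1 2 [6] [1, 0] [true, true, true, true, false, false, true, false] 1130,
   .idr 0 1 2 [6] [1, 0] [true, true, true, false, false, true, true, false] 129,
   .idr 0 1 2 [6] [1, 0] [true, true, false, false, true, true, false, false] 156,
   .idr 0 1 2 [6] [1, 0] [true, true, false, false, false, false, false, false] 284,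
   .idr 0 2 1 [6] [1, 0] [true, false, false, false, true, true, true, true] 1776,
   .idr 0 1 2 [3] [1] [false, true, false, false, false, true, true, true] 1969,
   .idr 0 1 2 [6] [1] [true, false, true, true, true, false, false, false] 1702,
   .idr 0 1 2 [6] [1] [true, false, true, true, false, false, false, false] 388,
   .idr 0 1 2 [6] [1] [true, false, true, false, true, false, false, false] 1496,
   .idr 0 1 2 [3] [0, 2] [true, false, true, false, false, true, false, false] 1518,
   .idr 0 1 2 [3] [0, 2] [true, false, false, false, true, true, false, false] 1343,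
   .idr 0 1 2 [3] [0, 2] [false, true, false, true, false, true, false, true] 2045,
   .idr 0 2 1 [3] [0, 2] [false, true, true, true, false, true, false, true] 1994,
   .idr 0 2 1 [3] [0, 2] [false, true, true, true, false, false, false, false] 1006,
   .idr 0 2 1 [3] [0, 2] [false, true, true, false, true, true, false, true] 327,
   .idr 0 2 1 [3] [0, 2] [false, true, true, false, true, false, false, false] 1312,
   .idr 0 2 1 [3] [0, 2] [false, true, true, false, false, true, false, true] 1119,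
   .idr 0 2 1 [3] [0, 2] [false, true, true, false, false, false, false, false] 660,
   .idr 0 2 1 [6] [0, 2] [true, false, true, false, true, false, false, false] 858,
   .idr 0 2 1 [3] [2, 0] [false, true, true, true, false, true, true, true] 480,
   .idr 0 2 1 [3] [2, 0] [false, true, true, true, false, true, false, true] 1496,
   .idr 0 2 1 [3] [2, 0] [false, false, true, true, false, true, false, false] 573,
   .idr 0 2 1 [6] [2, 0] [true, true, true, true, false, false, true, true] 2029,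
   .idr 0 2 1 [6] [2, 0] [true, false, true, true, true, true, true, true] 285,
   .idr 0 1 2 [3] [2] [true, true, true, true, true, true, false, true] 1,
   .idr 0 1 2 [3] [2] [true, true, false, true, true, false, false, false] 1032,
   .idr 0 1 2 [3] [2] [true, false, false, false, true, true, false, false] 1343,
   .idr 0 2 1 [3] [2] [false, true, true, false, false, true, false, true] 997,
   .idr 0 2 1 [6] [2] [true, false, true, true, true, true, false, true] 92,
   .idr 0 2 1 [6] [2] [true, false, true, true, true, false, false, false] 1748,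
   .idr 0 2 1 [6] [2] [true, false, true, true, false, true, false, true] 1561,
   .idr 0 2 1 [6] [2] [true, false, true, true, false, false, false, false] 679,
   .idr 0 2 1 [6] [2] [true, false, true, false, true, true, false, true] 496,
   .idr 0 2 1 [6] [2] [true, false, true, false, true, false, false, false] 977,
   .idr 0 2 1 [6] [2] [true, false, true, false, false, true, false, true] 547,
   .idr 0 2 1 [6] [2] [true, false, true, false, false, false, false, false] 109,
   .idr 0 2 1 [6] [2] [true, false, false, true, true, true, true, true] 660,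
   .idr 0 2 1 [6] [2] [true, false, false, true, true, false, true, false] 997,
   .idr 0 1 2 [3] [1, 2] [true, true, true, false, false, false, true, true] 604,
   .idr 0 1 2 [3] [1, 2] [true, true, true, false, false, false, false, true] 601,
   .idr 0 1 2 [3] [1, 2] [false, true, true, false, false, false, true, true] 1443,
   .idr 0 2 1 [3] [1, 2] [true, false, false, true, true, true, true, true] 284,
   .idr 0 2 1 [3] [1, 2] [true, false, false, true, true, true, true, false] 455,
   .idr 0 2 1 [3] [1, 2] [true, false, false, true, true, false, true, true] 372,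
   .idr 0 2 1 [3] [1, 2] [true, false, false, true, true, false, true, false] 855,
   .idr 0 2 1 [3] [1, 2] [true, false, false, true, false, true, true, true] 771,
   .idr 0 2 1 [3] [1, 2] [true, false, false, true, false, true, true, false] 251,
   .idr 0 2 1 [3] [1, 2] [true, false, false, false, true, true, true, false] 1455,
   .idr 0 2 1 [3] [1, 2] [true, false, false, false, true, false, true, false] 1845,
   .idr 0 2 1 [6] [1, 2] [false, true, false, true, true, false, true, true] 1149,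
   .idr 0 2 1 [6] [1, 2] [false, true, false, true, false, true, true, true] 1269,
   .idr 0 2 1 [6] [1, 2] [false, true, false, true, false, false, true, true] 1467,
   .idr 0 2 1 [6] [1, 2] [false, true, false, true, false, false, true, false] 327,
   .idr 0 2 1 [6] [1, 2] [false, true, false, false, false, true, true, false] 263,
   .idr 0 2 1 [6] [1, 2] [false, true, false, false, false, false, true, false] 34,
   .idr 0 2 1 [3] [2, 1] [true, true, false, false, true, false, true, false] 1467,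
   .idr 0 2 1 [3] [2, 1] [false, false, false, false, true, false, false, true] 92,
   .idr 0 2 1 [6] [2, 1] [true, false, false, true, false, false, true, true] 902,
   .ecl 0 [0, 1, 2, 1, 0, 1, 2, 1] 156,
   .ecl 0 [0, 1, 2, 1, 0, 1, 2, 1] 219,
   .ecl 0 [0, 1, 2, 1, 2, 0, 1, 2, 1, 2] 156,
   .ecl 0 [0, 1, 2, 1, 2, 0, 1, 2, 1, 2] 372,
   .ecl 0 [2, 1, 0, 1, 2, 0] 604,
   .ecl 0 [0, 1, 2, 0, 2, 1] 455,
   .ecl 0 [1, 0, 2, 1, 2, 0, 1, 0, 2, 1, 2] 1467,
   .ecl 0 [1, 0, 2, 1, 2, 0, 1, 0, 2, 1, 2] 1845,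
   .ecl 0 [0, 1, 2, 1, 0, 2, 0, 1, 2, 1, 0, 2] 263,
   .ecl 0 [0, 1, 2, 1, 0, 2, 0, 1, 2, 1, 0, 2] 997,
   .ecl 0 [0, 1, 2, 1, 0, 2, 0, 1, 2, 1, 0, 2] 1141,
   .ecl 0 [0, 1, 2, 1, 0, 2, 0, 1, 2, 1, 0, 2] 1156,
   .ecl 0 [0, 1, 0, 2, 1, 0, 1, 2, 0, 1, 2, 0, 2] 320,
   .ecl 0 [0, 1, 2, 1, 0, 2, 0, 1, 2, 1, 2] 977,
   .ecl 0 [0, 1, 2, 1, 0, 2, 0, 1, 2, 1, 2] 1141,
   .ecl 0 [0, 1, 2, 1, 0, 2, 1, 2, 0, 1, 2] 1443,
   .ecl 0 [0, 1, 2, 1, 2, 0, 1, 2, 1, 0, 2] 1496,
   .ecl 0 [0, 1, 2, 1, 2, 0, 1, 2, 1, 0, 2] 1994,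
   .ecl 0 [1, 2, 0, 2, 1, 2, 0, 2] 1156,
   .ecl 0 [0, 1, 2, 0, 1, 2, 0, 2, 1, 0, 2, 1] 977,
   .ecl 0 [1, 0, 1, 2, 1, 2, 0, 2, 1, 2] 1269,
   .ecl 0 [1, 0, 1, 2, 1, 2, 0, 2, 1, 2] 1748,
   .ecl 0 [0, 1, 2, 0, 1, 0, 1, 2, 1] 1616,
   .ecl 0 [0, 2, 0, 1, 2, 1, 0, 2, 1, 0, 2, 1] 977,
   .ecl 0 [0, 1, 2, 1, 2, 0, 2, 1, 0, 2, 1] 2045,
   .ecl 0 [0, 1, 0, 1, 2, 1, 0, 2, 0, 2, 1, 2, 0] 1269,
   .ecl 0 [0, 1, 2, 0, 1, 2, 1, 2, 0, 1, 2] 1455,
   .ecl 0 [0, 1, 2, 1, 2, 0, 1, 2, 0, 1, 0, 2] 1496,
   .ecl 0 [0, 1, 2, 1, 0, 2, 0, 1, 2, 0, 1, 2] 1141,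
   .ecl 0 [1, 2, 0, 2, 1, 0, 2, 1, 0, 1, 2] 1269,
   .ecl 0 [1, 2, 0, 2, 1, 0, 2, 1, 0, 1, 2] 2045,
   .ecl 0 [0, 2, 1, 0, 2, 1, 0, 2, 0, 1, 2, 1] 2045,
   .ecl 0 [0, 1, 0, 2, 0, 1, 2, 1, 0, 2, 1, 2, 0] 1269,
   .ecl 0 [1, 0, 1, 2, 1, 0, 2, 0, 2, 1, 2] 1748,
   .ecl 0 [0, 1, 2, 0, 1, 0, 2, 1, 2, 0, 1, 2] 2045,
   .ecl 0 [1, 0, 1, 2, 1, 2, 0, 1, 2, 0, 1, 2, 1] 2045,
   .ecl 0 [0, 1, 2, 1, 2, 0, 1, 2, 0, 1, 2] 2045,
   .fpf 0 0 [0, 1],
   .fpf 0 0 [0, 2],
   .fpf 0 0 [1, 2],
   .fpf 0 0 [1, 2, 1, 2],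
   .fpf 0 0 [0, 1, 0, 2],
   .fpf 0 0 [0, 1, 2, 1, 0, 1, 2],
   .fpf 0 0 [0, 2, 1],
   .fpf 0 0 [0, 2, 1, 2, 0, 2, 1],
   .c4 0 0 1 [2, 0],
   .c4 0 0 2 [1, 2, 1],
   .c4 0 0 1 [0, 1, 0, 2],
   .c4 0 0 2 [0, 1, 0, 2, 0, 1],
   .c4 0 0 1 [0, 1, 2],
   .c4 0 0 1 [2, 1, 2, 0, 2, 1],
   .c4 0 0 2 [1, 2, 0, 1, 0, 2],
   .efx [0, 1, 2, 1, 0, 1, 2, 1] 978,
   .efx [0, 1, 2, 1, 0, 1, 2, 1] 1270,
   .efx [0, 1, 2, 1, 2, 0, 1, 2, 1, 2] 5,
   .el 0 0 [0, 2] 92,
   .el 0 0 [2, 1] 109,
   .efx [0, 1, 2, 1, 0, 2, 0, 1, 2, 1, 0, 2] 4,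
   .efx [0, 1, 2, 1, 0, 2, 0, 1, 2, 1, 0, 2] 6,
   .el 0 0 [1, 2] 219,
   .el 0 0 [0, 2] 251,
   .el 0 0 [0, 2] 257,
   .el 0 0 [1, 2] 284,
   .el 0 0 [2, 1] 284,
   .efx [0, 1, 0, 1, 2, 0, 2, 1, 0, 1] 0,
   .efx [0, 1, 0, 1, 2, 0, 2, 1, 0, 1] 2,
   .efx [0, 1, 0, 1, 2, 0, 2, 1, 0, 1] 6,
   .efx [0, 1, 0, 1, 2, 0, 2, 1, 0, 1] 808,
   .el 0 0 [1, 2, 1, 2] 327,
   .el 0 0 [0, 2] 363,
   .efx [1, 2, 1, 2, 0, 1, 2, 1, 0, 2] 1640,
   .el 0 0 [2, 1, 2] 372,
   .el 0 0 [0, 2] 388,
   .efx [0, 1, 2, 0, 1, 2, 0, 2, 1, 0, 2, 1] 0,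
   .efx [0, 1, 2, 0, 1, 2, 0, 2, 1, 0, 2, 1] 2,
   .efx [0, 1, 2, 0, 1, 2, 0, 2, 1, 0, 2, 1] 5,
   .efx [0, 1, 2, 0, 1, 2, 0, 2, 1, 0, 2, 1] 724,
   .efx [0, 1, 2, 0, 1, 2, 0, 2, 1, 0, 2, 1] 1270,
   .el 0 0 [0, 2] 484,
   .el 0 0 [0, 2] 496,
   .el 0 0 [0, 2] 547,
   .el 0 0 [0, 2] 548,
   .efx [1, 2, 1, 0, 1, 2, 1, 2, 0, 2] 591,
   .el 0 0 [0, 2] 573,
   .el 0 0 [0, 2] 601,
   .el 0 0 [0, 2] 632,
   .el 0 0 [0, 2] 660,
   .el 0 0 [2, 1] 679,
   .el 0 0 [0, 2] 771,
   .el 0 0 [0, 2] 800,
   .el 0 0 [0, 2] 808,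
   .el 0 0 [2, 1] 863,
   .el 0 0 [0, 2] 885,
   .el 0 0 [2, 1] 893,
   .el 0 0 [0, 2] 902,
   .el 0 0 [1, 2] 981,
   .el 0 0 [2, 1] 981,
   .el 0 0 [] 997,
   .el 0 0 [0, 2] 1006,
   .el 0 0 [0, 2] 1032,
   .el 0 0 [0, 2] 1130,
   .el 0 0 [0, 2] 1149,
   .el 0 0 [0, 2] 1312,
   .el 0 0 [0, 2] 1319,
   .el 0 0 [0, 2] 1343,
   .el 0 0 [2, 1] 1443,
   .el 0 0 [2, 1] 1467,
   .el 0 0 [0, 2] 1518,
   .el 0 0 [0, 2] 1561,
   .el 0 0 [0, 2] 1579,
   .el 0 0 [0, 2] 1702,
   .el 0 0 [1, 2, 1, 2] 1748,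
   .el 0 0 [0, 2] 1776,
   .el 0 0 [0, 2] 1890,
   .el 0 0 [0, 2] 1901,
   .el 0 0 [0, 2] 1944,
   .el 0 0 [0, 2] 1969,
   .el 0 0 [1, 2, 1, 2] 1994,
   .el 0 0 [0, 2] 2029,
   .mv 0 [] 0,
   .mv 0 [] 6,
   .mv 0 [0, 1] 1,
   .mv 0 [0, 1] 2,
   .mv 0 [0, 1] 3,
   .mv 0 [0, 2] 311,
   .mv 0 [0, 2] 591,
   .mv 0 [1, 2] 298,
   .mv 0 [1, 2] 1290,
   .mv 0 [1, 2, 1] 485,
   .mv 0 [0, 1, 0, 2] 1409,
   .mv 0 [0, 1, 0, 2, 0, 1, 0, 2] 1,
   .mv 0 [2, 0, 1, 0, 2, 0] 311,
   .mv 0 [0, 2, 1] 978,
   .mv 0 [0, 2, 1, 2, 0, 2, 1] 1,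
   .mv 0 [0, 2, 1, 2, 0, 2, 1] 3,
   .mv 0 [0, 2, 1, 2, 0, 2, 1] 7,
   .mv 1 [] 0,
   .mv 1 [0] 1,
   .mv 1 [0] 2]

/-- steps -/
def e0s : List Rup.Step :=
  [(395, [3], [387, 385, 386, 304]),
   (396, [6], [388, 383]),
   (397, [240], [388, 385, 396, 372]),
   (398, [80], [389, 397, 395, 317]),
   (399, [2957], [391, 390, 176]),
   (400, [8045], [391, 390, 186]),
   (401, [8237], [391, 390, 188]),
   (402, [11629], [391, 390, 204]),
   (403, [12429], [391, 390, 210]),
   (404, [15501], [391, 390, 222]),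
   (405, [15885], [391, 390, 224]),
   (406, [17517], [391, 390, 226]),
   (407, [17549], [391, 390, 228]),
   (408, [18349], [391, 390, 232]),
   (409, [19245], [391, 390, 234]),
   (410, [20237], [391, 390, 236]),
   (411, [21133], [391, 390, 238]),
   (412, [24685], [391, 390, 242]),
   (413, [25613], [391, 390, 244]),
   (414, [25869], [391, 390, 246]),
   (415, [28333], [391, 390, 250]),
   (416, [28877], [391, 390, 254]),
   (417, [32205], [391, 390, 262]),
   (418, [33037], [391, 390, 264]),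
   (419, [36173], [391, 390, 266]),
   (420, [36781], [391, 390, 268]),
   (421, [41997], [391, 390, 270]),
   (422, [42221], [391, 390, 272]),
   (423, [42989], [391, 390, 274]),
   (424, [48589], [391, 390, 280]),
   (425, [49965], [391, 390, 282]),
   (426, [50541], [391, 390, 284]),
   (427, [54477], [391, 390, 286]),
   (428, [56845], [391, 390, 290]),
   (429, [60493], [391, 390, 292]),
   (430, [60845], [391, 390, 294]),
   (431, [62221], [391, 390, 296]),
   (432, [63021], [391, 390, 298]),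
   (433, [64941], [391, 390, 302]),
   (434, [209], [392, 386, 396, 375]),
   (435, [176], [392, 398, 396, 380]),
   (436, [67], [434, 387, 397, 307]),
   (437, [113], [434, 389, 395, 322]),
   (438, [145], [436, 386, 389, 313]),
   (439, [609, 736, 5004, 1249, 480], [423, 389, 387, 391, 38, 62]),
   (440, [608, 512, 480, 736, 1248, 576, 16684], [389, 147, 391, 152, 387, 390, 401, 44, 15, 75, 45]),
   (441, [544, 608, 1248, 737], [387, 389, 390, 420, 414, 23, 101]),
   (442, [608, 1248, 31404, 737, 481], [389, 390, 387, 19, 441]),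
   (443, [544, 609, 737, 576, 1248], [403, 390, 391, 421, 389, 387, 59, 67]),
   (444, [544, 609, 577, 737], [389, 431, 391, 387, 412, 97, 14]),
   (445, [609, 513, 481, 737, 577, 1249], [387, 390, 393, 389, 20, 444]),
   (446, [513, 481, 1249, 737, 577], [148, 387, 389, 390, 391, 406, 445, 86, 94, 87, 115]),
   (447, [737, 577, 1249, 55949, 64141], [168, 287, 446]),
   (448, [545, 512, 480, 736, 8428, 577, 1249, 37004], [391, 390, 389, 387, 48, 105]),
   (449, [512, 480, 37004, 736, 8428, 577, 1249], [423, 389, 387, 391, 399, 448, 108, 78]),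
   (450, [544, 512, 480, 736, 577], [399, 391, 387, 389, 423, 108, 78]),
   (451, [512, 1249, 37004, 736, 480, 577], [387, 391, 389, 148, 449, 118, 450, 48, 47]),
   (452, [609, 31916, 512, 480, 576], [391, 411, 390, 389, 387, 88, 89]),
   (453, [608, 576, 480, 736, 40620], [147, 389, 391, 387, 390, 16, 15]),
   (454, [609, 512, 480, 736, 576, 1248, 63820], [390, 154, 411, 387, 389, 391, 88, 452, 64, 138, 259, 69, 40]),
   (455, [512, 480, 63820, 736, 576, 1248], [154, 454, 453, 440, 130]),
   (456, [736, 576, 1248, 55949, 64141, 63820], [167, 288, 455]),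
   (457, [609, 513, 481, 737, 31405, 576, 1248], [422, 389, 390, 409, 148, 387, 391, 255, 443, 27, 33, 91, 114, 90]),
   (458, [31405, 576, 513, 481, 737, 1248], [148, 391, 389, 387, 136, 457, 99, 441]),
   (459, [576, 513, 1248, 481, 737], [391, 387, 148, 409, 390, 389, 422, 458, 442, 443, 6, 27, 33, 91, 114, 90]),
   (460, [609, 577, 9100, 737, 481], [387, 389, 391, 93, 444]),
   (461, [513, 737, 1248, 481], [459, 192, 258, 442, 460]),
   (462, [737, 1248, 55949, 64141], [168, 287, 461]),
   (463, [1248, 55949, 64141, 63820], [154, 387, 153, 389, 391, 143, 462, 167, 288, 456, 450, 165, 252, 48, 131, 47, 44, 120, 39, 40]),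
   (464, [609, 576, 512, 480, 736, 1249], [390, 156, 439, 452, 119]),
   (465, [512, 480, 37004, 736, 1249], [391, 389, 152, 387, 401, 390, 147, 451, 156, 247, 464, 453, 15, 135, 45, 75, 43, 42]),
   (466, [736, 1249, 55949, 64141], [154, 143, 167, 288, 465]),
   (467, [608, 3500, 481, 737, 1249], [391, 406, 390, 389, 387, 86, 87]),
   (468, [1249, 55949, 64141], [390, 402, 389, 387, 393, 421, 391, 419, 466, 168, 287, 447, 177, 467, 20, 5, 67, 1, 21]),
   (469, [55949, 64141, 63820], [463, 468]),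
   (470, [544, 576, 481, 737, 1249], [419, 391, 421, 393, 387, 389, 402, 390, 177, 467, 5, 67, 1, 21]),
   (471, [576, 481, 737, 1249], [432, 393, 390, 389, 387, 177, 257, 467, 470, 20, 6, 57, 201, 1, 66]),
   (472, [609, 481, 737, 1249, 60849], [438, 402, 391, 387, 390, 393, 389, 471, 446, 460, 200, 189, 180, 21, 54, 1]),
   (473, [737, 1249, 60849, 64141], [406, 391, 389, 387, 148, 168, 471, 472, 86, 467, 94, 115]),
   (474, [608, 577, 480, 736, 55948], [391, 399, 390, 389, 387, 80, 81]),
   (475, [577, 480, 736, 1249, 60849, 55948], [423, 148, 149, 438, 390, 429, 389, 391, 387, 418, 474, 439, 62, 118, 121, 180, 48, 2, 465, 200, 12, 55, 77]),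
   (476, [609, 576, 480, 736, 1249], [423, 389, 391, 387, 275, 62, 464, 50]),
   (477, [513, 1057, 801, 608, 46956, 576, 32492], [389, 387, 390, 7, 8]),
   (478, [1249, 60849, 55948, 64141, 32492], [147, 390, 401, 387, 152, 389, 391, 473, 167, 475, 156, 277, 247, 476, 453, 15, 135, 45, 75, 477, 42, 43]),
   (479, [608, 513, 576, 480, 736, 32492], [147, 390, 401, 152, 389, 387, 391, 148, 15, 45, 75, 477, 41, 116]),
   (480, [672, 609, 736, 1248, 65453], [391, 411, 390, 389, 387, 160, 69, 68, 141]),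
   (481, [673, 609, 63820, 736, 1248], [387, 389, 417, 391, 390, 64, 65]),
   (482, [609, 736, 1248, 65453], [151, 146, 480, 481]),
   (483, [736, 1248, 64141, 65453], [150, 151, 146, 469, 140, 167, 482, 474, 479, 455]),
   (484, [608, 481, 737, 1248, 59052], [391, 389, 387, 461, 442, 441, 258, 256, 100]),
   (485, [576, 481, 737, 1248, 65453], [151, 154, 391, 432, 389, 390, 387, 145, 484, 461, 201, 146, 443, 100, 66, 57, 26]),
   (486, [1248, 64141, 65453], [154, 145, 483, 168, 484, 485, 192, 460]),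
   (487, [609, 481, 737, 60848, 1249], [385, 398, 434, 386, 437, 397, 402, 435, 393, 389, 391, 387, 390, 471, 446, 460, 444, 193, 195, 198, 189, 11, 359, 363, 368, 21, 173, 346, 1, 334, 54, 329, 112, 229]),
   (488, [737, 60848, 1249, 64141], [406, 391, 389, 387, 148, 168, 471, 487, 86, 467, 94, 115]),
   (489, [608, 480, 736, 1249, 55948, 32492], [147, 390, 401, 387, 152, 389, 391, 474, 479, 156, 247, 453, 15, 135, 45, 75, 42, 43]),
   (490, [1249, 55948, 32492, 64141], [390, 386, 391, 437, 435, 398, 385, 387, 389, 418, 429, 434, 149, 148, 423, 478, 488, 167, 489, 439, 62, 476, 118, 121, 182, 48, 2, 465, 12, 77, 106, 55, 71, 110, 193, 195, 211, 213, 215, 218, 359, 363, 347, 340, 337, 205, 353, 358, 326, 170, 172, 219]),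
   (491, [64141, 65453], [150, 151, 146, 140, 469, 486, 490]),
   (492, [480, 60848, 609, 736, 1249], [423, 148, 149, 434, 429, 418, 389, 387, 385, 398, 435, 437, 391, 386, 390, 439, 62, 476, 118, 121, 182, 48, 2, 465, 12, 77, 106, 55, 71, 110, 193, 195, 211, 213, 215, 218, 359, 363, 347, 340, 337, 353, 205, 326, 358, 172, 170, 219]),
   (493, [481, 609, 736, 1249, 63820], [410, 415, 391, 148, 393, 387, 389, 390, 22, 35, 34, 113, 207, 32, 20, 11]),
   (494, [609, 736, 55948, 1249, 63820], [493, 476, 492, 475]),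
   (495, [577, 481, 608, 736, 1249, 27468], [405, 149, 389, 391, 418, 390, 387, 163, 84, 70, 85, 129, 123, 2, 77, 71]),
   (496, [513, 1057, 576, 481, 608, 65453], [150, 387, 389, 414, 390, 491, 144, 140, 9, 477]),
   (497, [736, 55948, 1249, 65453], [153, 150, 151, 413, 408, 432, 154, 391, 390, 389, 387, 146, 140, 134, 494, 489, 495, 156, 18, 70, 73, 496, 57, 51, 137, 72, 54, 79, 119]),
   (498, [481, 608, 737, 1249], [406, 391, 389, 387, 148, 471, 86, 467, 94, 115]),
   (499, [544, 577, 737, 608], [387, 391, 425, 389, 400, 98, 49]),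
   (500, [51724, 608, 577, 737, 480], [387, 391, 389, 46, 499]),
   (501, [480, 608, 737, 1249, 801], [148, 387, 389, 390, 83, 132, 239, 500]),
   (502, [480, 608, 737, 1249], [387, 389, 425, 391, 82, 501]),
   (503, [608, 737, 1249], [498, 502]),
   (504, [545, 576, 46188, 737, 609, 480], [387, 391, 389, 37, 50, 259, 452]),
   (505, [576, 480, 737, 1249], [421, 422, 390, 424, 387, 391, 389, 416, 503, 275, 504, 67, 29, 61, 259, 109, 452]),
   (506, [480, 737, 1249], [391, 154, 148, 389, 430, 390, 387, 393, 503, 505, 444, 36, 111, 122, 183, 106, 13, 25, 76]),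
   (507, [481, 609, 737, 1249], [472, 487]),
   (508, [737, 1249], [503, 506, 507]),
   (509, [1249, 65453], [153, 151, 413, 408, 432, 154, 391, 390, 389, 387, 146, 134, 508, 497, 143, 288, 465, 493, 495, 156, 18, 70, 73, 57, 51, 137, 72, 54, 79, 119]),
   (510, [576, 512, 481, 736, 65453], [413, 408, 389, 390, 391, 387, 154, 509, 482, 145, 18, 100, 73, 60, 51, 137]),
   (511, [577, 481, 608, 736], [405, 149, 154, 389, 391, 418, 390, 387, 163, 84, 85, 129, 133, 123, 96, 2, 77, 71]),
   (512, [481, 736, 65453], [150, 391, 413, 414, 390, 387, 389, 509, 482, 491, 144, 140, 511, 18, 510, 9, 7, 107]),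
   (513, [576, 736, 65453], [150, 151, 512, 509, 482, 146, 140, 455, 479]),
   (514, [736, 65453, 1248], [391, 387, 389, 482, 512, 513, 165, 474, 131, 288, 44, 450]),
   (515, [608, 65453], [154, 390, 389, 387, 509, 514, 491, 144, 145, 441, 484, 103]),
   (516, [545, 480, 609, 737, 1248], [391, 387, 389, 154, 390, 104, 125, 201, 92]),
   (517, [544, 609, 1248, 737], [387, 389, 421, 391, 390, 403, 59, 444, 67]),
   (518, [65453, 1248], [514, 515, 517, 516, 485, 460, 192]),
   (519, [65453], [509, 518]),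
   (520, [577, 609, 737, 1248], [517, 516, 192, 460]),
   (521, [545, 609, 1248, 737], [389, 390, 387, 432, 516, 461, 201, 299, 520, 66, 26, 57, 6, 255]),
   (522, [609, 737, 1248], [517, 521]),
   (523, [673, 481, 576, 737, 1248], [390, 519, 387, 391, 428, 522, 442, 256, 461, 441, 63, 56]),
   (524, [481, 576, 737, 1248], [433, 389, 419, 391, 387, 522, 441, 484, 461, 158, 117, 523, 74, 53, 52]),
   (525, [576, 737, 1248], [404, 426, 148, 389, 391, 390, 387, 519, 522, 441, 524, 103, 17, 24, 116, 53, 41, 63]),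
   (526, [608, 737, 1248], [387, 389, 390, 441, 525, 278, 258, 103, 442]),
   (527, [737, 1248], [522, 526]),
   (528, [577, 545, 608, 1248], [389, 387, 391, 527, 165, 511, 474, 288, 131, 44]),
   (529, [545, 608, 1248], [387, 389, 519, 390, 154, 527, 528, 10, 453, 130, 440, 157, 479, 139]),
   (530, [576, 480, 544, 608, 736], [401, 390, 387, 147, 389, 391, 152, 75, 15, 45]),
   (531, [576, 544, 736, 608], [389, 413, 391, 387, 18, 530]),
   (532, [577, 544, 736, 608], [387, 389, 405, 391, 84, 450, 474, 288]),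
   (533, [544, 608, 736], [531, 532]),
   (534, [608, 1248], [527, 529, 533]),
   (535, [544, 609, 1248, 736], [389, 413, 391, 387, 390, 427, 432, 411, 69, 28, 58, 481, 3, 300, 450]),
   (536, [480, 577, 1248], [153, 391, 390, 389, 387, 252, 165, 527, 534, 535, 39, 40, 120, 124, 47, 48, 102, 128, 142]),
   (537, [577, 1248], [519, 390, 391, 389, 387, 527, 534, 535, 165, 536, 4, 60, 95, 126]),
   (538, [481, 1248], [519, 408, 389, 390, 391, 387, 154, 537, 527, 534, 535, 4, 32, 73, 60, 300, 51, 137]),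
   (539, [609, 736, 1248], [391, 389, 387, 154, 390, 407, 535, 537, 538, 30, 31, 138, 259, 40]),
   (540, [1248], [527, 534, 539]),
   (541, [737], [540, 508]),
   (542, [513, 480, 576], [540, 541, 476, 453, 157, 479, 139]),
   (543, [480, 576, 545], [390, 541, 389, 391, 540, 247, 156, 476, 453, 135, 542, 42, 43]),
   (544, [576, 545], [519, 389, 410, 390, 415, 387, 391, 540, 541, 156, 543, 10, 32, 22, 127, 35, 34]),
   (545, [481, 545], [393, 410, 389, 390, 415, 387, 391, 540, 541, 148, 544, 511, 20, 22, 11, 35, 34, 113]),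
   (546, [609, 545], [149, 540, 541, 545, 544, 439, 492, 121, 475, 465, 288]),
   (547, [608, 577, 480], [541, 540, 154, 474, 143, 288, 465]),
   (548, [545], [544, 545, 546, 547]),
   (549, [608], [548, 541, 533]),
   (550, [480], [549, 423, 541, 548, 540, 389, 387, 391, 62]),
   (551, [800], [550, 390, 410, 540, 541, 549, 389, 387, 22]),
   (552, [1056], [551, 415, 540, 550, 541, 391, 387, 549, 35]),
   (553, [11917], [551, 548, 207]),
   (554, [], [553, 551, 541, 549, 552, 540, 391, 387, 550, 34])]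

/-- the case -/
def e0 : Case :=
  ⟨[1, 5, 64, 256, 1377, 37, 45, 77], 1, [], [0], e0i, e0s⟩

theorem e0_check : e0.check t11 l11 nrp 16 = true := by decide +kernel

/-- rule instances of the master -/
def m11i : List Ins :=
  [.nr 0 0 1 0,
   .fpf 0 0 [],
   .el 0 0 [] 2,
   .el 0 0 [1] 2]

/-- steps of the master -/
def m11s : List Rup.Step :=
  [(17, [0, 4, 65, 257, 1376, 36, 76], [5, 10]),
   (18, [77], [14, 11, 6]),
   (19, [37], [14, 11, 12, 1]),
   (20, [1376], [15, 11, 12, 14, 19, 18, 17]),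
   (21, [], [20, 16])]

end Pool.Agent.BG.Cert
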