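import Pool.Agent.Lib.MP_291637_al_h3.D128
import Pool.Agent.Lib.MP_291637_al_h3.D11

/-!
# The weak triple theorem
-/

set_option autoImplicit false

namespace Pool.Agent.BG.Cert

variable {V : Type*} {f : V → V → Bool}

theorem cases128_check : ∀ c ∈ cases128, c.check t128 l128 nrp 12 = true := by
  intro c hc
  simp only [cases128, List.mem_cons, List.not_mem_nil, or_false] at hc
  rcases hc with rfl | rfl | rfl | rfl | rfl | rfl | rfl | rfl
  · exact c0_check
  · exact c1_check
  · exact c2_check
  · exact c3_check
  · exact c4_check
  · exact c5_check
  · exact c6_check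
  · exact c7_check

theorem m128_check : mcheck t128 l128 nrp 12 m128i cases128 (pat128 l128) m128s = true := by
  decide +kernel

theorem okLinks128 : l128.links.all (okLink extra128) = true := by decide +kernel

theorem cc (hf : ∀ x y, f x y = f y x) : CC f :=
  CC_of hf l128 lcheck128 okLinks128
    (fun _ C x => master_sound C cases128_check m128_check x)

theorem m11_check : mcheck t11 l11 nrp 16 m11i [e0] (pat11 l11) m11s = true := by
  decide +kernel

theorem okLinks11 : l11.links.all (okLink extra11) = true := by decide +kernel

theorem vf11 (hf : ∀ x y, f x y = f y x) : VF11 f :=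
  VF11_of hf l11 lcheck11 okLinks11
    (fun _ C x => master_sound C (by
      intro c hc
      simp only [List.mem_cons, List.not_mem_nil, or_false] at hc
      rw [hc]
      exact e0_check) m11_check x)

theorem vf (hf : ∀ x y, f x y = f y x) : VF f := vf_of hf (cc hf) (vf11 hf)

end Pool.Agent.BG.Cert
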