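import Pool.Agent.Lib.MP_291637_al_h3.Gen
import Pool.Agent.Lib.MP_291637_al.Rup
import Pool.Agent.Lib.MP_291637_al_h42.Glue

/-!
# Cases and master certificates
-/

set_option autoImplicit false

namespace Pool.Agent.BG.Cert

variable {V : Type*} {f : V → V → Bool}

theorem litT_iff (v : ℕ → Bool) (l : ℕ) : litT v l ↔ Rup.lit v l = true := by
  unfold litT Rup.lit
  rcases Nat.mod_two_eq_zero_or_one l with h | h
  · rw [h]; simp
  · rw [h]; simp

theorem satC_iff (v : ℕ → Bool) (c : List ℕ) : satC v c ↔ Rup.cl v c = true := by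
  induction c with
  | nil => simp [satC_nil, Rup.cl]
  | cons l c ih => rw [satC_cons, Rup.cl, Bool.or_eq_true, litT_iff, ih]

/-- Remove repeated literals. -/
def dd : List ℕ → List ℕ
  | [] => []
  | l :: c => if Rup.mem l c then dd c else l :: dd c

theorem satC_dd {v : ℕ → Bool} {c : List ℕ} (h : satC v c) : satC v (dd c) := by
  induction c with
  | nil => exact h
  | cons l c ih =>
    rw [satC_cons] at h
    rw [dd]
    split_ifs with hm
    · rcases h with h | h
      · exact ih ⟨l, Rup.mem_spec hm, h⟩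
      · exact ih h
    · rw [satC_cons]
      rcases h with h | h
      · exact Or.inl h
      · exact Or.inr (ih h)

/-- A case: literals of the first side, a structure, two words, rule instances, steps. -/
structure Case where
  hyp : List ℕ
  i : ℕ
  u1 : List ℕ
  u2 : List ℕ
  ins : List Ins
  ss : List Rup.Step

/-- The clauses of the witness. -/
def dem (t : Tab) (L : Lab) (c : Case) : List (List ℕ) :=
  [[ps (aL L 1 c.i 0), ps (aL L 0 c.i (t.walk c.u1 0))],
   [ng (aL L 1 c.i 0), ng (aL L 0 c.i (t.walk c.u1 0))],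
   [ps (aF (t.walk c.u1.reverse 0))],
   [ng (aF (t.walk c.u2.reverse 0))]]

/-- The literal belongs to the first side. -/
def xs (l : ℕ) : Bool := Nat.blt (Nat.mod (Nat.div l 2) 16) 8 && Nat.beq (Nat.mod (Nat.div l 2) 2) 0

/-- The hypotheses needed for the existence of the witness. -/
def Case.pre (t : Tab) (L : Lab) (c : Case) : Bool :=
  let a1 := aL L 0 c.i (t.walk c.u1 0)
  let a2 := aL L 0 c.i (t.walk c.u2 0)
  c.hyp.all xs &&
  (Nat.beq a1 a2 || (Rup.mem (ps a1) c.hyp && Rup.mem (ps a2) c.hyp) ||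
    (Rup.mem (ng a1) c.hyp && Rup.mem (ng a2) c.hyp)) &&
  Rup.mem (ng (aE 0 (t.walk (c.u2 ++ c.u1.reverse) 0))) c.hyp &&
  Rup.mem (ng (aE 0 (t.walk (c.u2 ++ c.i :: c.u1.reverse) 0))) c.hyp

/-- The clauses of the rule instances. -/
def clauses (t : Tab) (L : Lab) (nrp : List (ℕ × ℕ)) (ins : List Ins) : List (List ℕ) :=
  (ins.flatMap (gen t L nrp)).map dd

/-- The check of a case. -/
def Case.check (t : Tab) (L : Lab) (nrp : List (ℕ × ℕ)) (fuel : ℕ) (c : Case) : Bool :=
  c.pre t L &&
  Rup.check fuel (Rup.build fuel Rup.Trie.nil 1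
    (clauses t L nrp c.ins ++ (dem t L c ++ c.hyp.map fun l => [l]))) c.ss

/-- The check of the master certificate. -/
def mcheck (t : Tab) (L : Lab) (nrp : List (ℕ × ℕ)) (fuel : ℕ) (ins : List Ins)
    (cases : List Case) (pat : List ℕ) (ss : List Rup.Step) : Bool :=
  Rup.check fuel (Rup.build fuel Rup.Trie.nil 1
    (clauses t L nrp ins ++ ((cases.map fun c => c.hyp.map Rup.neg) ++ pat.map fun l => [l]))) ss

theorem val_xs {t : Tab} {S : ℕ → Str f} {x z z' : V} {b b' : Bool} {l : ℕ} (h : xs l = true) :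
    litT (val t S x z b) l → litT (val t S x z' b') l := by
  rw [xs, Bool.and_eq_true] at h
  have h1 : l / 2 % 16 < 8 := lt_of_blt h.1
  have h2 : l / 2 % 2 = 0 := Nat.eq_of_beq_eq_true h.2
  unfold litT
  have key : val t S x z b (l / 2) = val t S x z' b' (l / 2) := by
    have hb : ∀ z : V, bp (l / 2) x z = x := fun z => if_pos h2
    unfold val
    rw [hb, hb]
    split_ifs <;> rfl
  rw [key]
  exact id

section Sound

variable {t : Tab} {L : Lab} {S : ℕ → Str f} {nrp : List (ℕ × ℕ)} (C : Ctx t L S nrp)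

include C

theorem clauses_sound (x z : V) (b : Bool) (ins : List Ins) :
    ∀ c ∈ clauses t L nrp ins, satC (val t S x z b) c := by
  intro c hc
  simp only [clauses, List.mem_map, List.mem_flatMap] at hc
  obtain ⟨c', ⟨g, -, hg⟩, rfl⟩ := hc
  exact satC_dd (gen_sound C x z b g c' hg)

theorem case_sound {fuel : ℕ} {c : Case} (hc : c.check t L nrp fuel = true) (x : V) :
    ¬ ∀ l ∈ c.hyp, litT (val t S x x true) l := by
  intro hx
  rw [Case.check, Bool.and_eq_true] at hc
  obtain ⟨hpre, hrup⟩ := hc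
  simp only [Case.pre, Bool.and_eq_true, Bool.or_eq_true] at hpre
  obtain ⟨⟨⟨hxs, hlab⟩, hE1⟩, hE2⟩ := hpre
  have hl1 := val_L (t := t) (L := L) (S := S) x x true C.hc 0 c.i (t.walk c.u1 0)
    (C.ht.walk_lt _ C.ht.npos)
  have hl2 := val_L (t := t) (L := L) (S := S) x x true C.hc 0 c.i (t.walk c.u2 0)
    (C.ht.walk_lt _ C.ht.npos)
  rw [C.ht.run_zero] at hl1 hl2
  change _ = (S (c.i % 3)).h (run S c.u1 x) at hl1
  change _ = (S (c.i % 3)).h (run S c.u2 x) at hl2
  have hlab' : (S (c.i % 3)).h (run S c.u1 x) = (S (c.i % 3)).h (run S c.u2 x) := by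
    rw [← hl1, ← hl2]
    rcases hlab with (h | h) | h
    · rw [Nat.eq_of_beq_eq_true h]
    · have h1 := (litT_ps _ _).1 (hx _ (Rup.mem_spec h.1))
      have h2 := (litT_ps _ _).1 (hx _ (Rup.mem_spec h.2))
      rw [h1, h2]
    · have h1 := (litT_ng _ _).1 (hx _ (Rup.mem_spec h.1))
      have h2 := (litT_ng _ _).1 (hx _ (Rup.mem_spec h.2))
      rw [h1, h2]
  have hne1 : run S c.u2 x ≠ run S c.u1 x := by
    intro e
    have h1 := (litT_ng _ _).1 (hx _ (Rup.mem_spec hE1))
    have h2 := E_of_fix C (u := c.u2 ++ c.u1.reverse) x x true (s := 0) (by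
      change run S _ x = x
      rw [run_append, e, run_reverse])
    rw [h2] at h1
    exact absurd h1 (by simp)
  have hne2 : run S c.u2 x ≠ (S (c.i % 3)).c (run S c.u1 x) := by
    intro e
    have h1 := (litT_ng _ _).1 (hx _ (Rup.mem_spec hE2))
    have h2 := E_of_fix C (u := c.u2 ++ c.i :: c.u1.reverse) x x true (s := 0) (by
      change run S _ x = x
      rw [run_append, e]
      change run S c.u1.reverse ((S (c.i % 3)).c _) = x
      rw [Str.cc, run_reverse])
    rw [h2] at h1
    exact absurd h1 (by simp)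
  obtain ⟨z, hz, hz'⟩ := (S (c.i % 3)).sep (run S c.u1 x) (run S c.u2 x) hlab' hne1 hne2
  set b := f (run S c.u1 x) z with hb
  have hF : ∀ u : List ℕ, f x (run S u.reverse z) = f (run S u x) z := by
    intro u
    rw [← run_f S u x (run S u.reverse z), run_reverse']
  refine Rup.refute (v := val t S x z b) fuel _ c.ss hrup ?_
  intro d hd
  rw [← satC_iff]
  rw [List.mem_append, List.mem_append] at hd
  have hz1 := val_L (t := t) (L := L) (S := S) x z b C.hc 1 c.i 0 C.ht.npos
  have hz2 := val_L (t := t) (L := L) (S := S) x z b C.hc 0 c.i (t.walk c.u1 0)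
    (C.ht.walk_lt _ C.ht.npos)
  change _ = (S (c.i % 3)).h z at hz1
  rw [C.ht.run_zero] at hz2
  change _ = (S (c.i % 3)).h (run S c.u1 x) at hz2
  rcases hd with hd | hd | hd
  · exact clauses_sound C x z b c.ins d hd
  · simp only [dem, List.mem_cons, List.not_mem_nil, or_false] at hd
    rcases hd with rfl | rfl | rfl | rfl
    · rw [satC_cons, satC_cons, litT_ps, litT_ps, hz1, hz2]
      revert hz
      cases (S (c.i % 3)).h z <;> cases (S (c.i % 3)).h (run S c.u1 x) <;> simp
    · rw [satC_cons, satC_cons, litT_ng, litT_ng, hz1, hz2]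
      revert hz
      cases (S (c.i % 3)).h z <;> cases (S (c.i % 3)).h (run S c.u1 x) <;> simp
    · rw [satC_cons, litT_ps, val_F, C.ht.run_zero, hF]
      left
      simp [hb]
    · rw [satC_cons, litT_ng, val_F, C.ht.run_zero, hF]
      left
      rw [beq_eq_false_iff_ne]
      exact fun e => hz' e.symm
  · rw [List.mem_map] at hd
    obtain ⟨l, hl, rfl⟩ := hd
    rw [satC_cons]
    left
    exact val_xs (List.all_eq_true.1 hxs l hl) (hx l hl)

theorem master_sound {fuel : ℕ} {ins : List Ins} {cases : List Case} {pat : List ℕ}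
    {ss : List Rup.Step} (hcases : ∀ c ∈ cases, c.check t L nrp fuel = true)
    (hm : mcheck t L nrp fuel ins cases pat ss = true) (x : V) :
    ¬ ∀ l ∈ pat, litT (val t S x x true) l := by
  intro hx
  refine Rup.refute (v := val t S x x true) fuel _ ss hm ?_
  intro d hd
  rw [← satC_iff]
  rw [List.mem_append, List.mem_append] at hd
  rcases hd with hd | hd | hd
  · exact clauses_sound C x x true ins d hd
  · rw [List.mem_map] at hd
    obtain ⟨c, hc, rfl⟩ := hd
    have h1 := case_sound C (hcases c hc) x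
    push Not at h1
    obtain ⟨l, hl, hl'⟩ := h1
    refine ⟨Rup.neg l, List.mem_map.2 ⟨l, hl, rfl⟩, ?_⟩
    rw [litT_iff, Rup.lit_neg]
    rw [litT_iff] at hl'
    simpa using hl'
  · rw [List.mem_map] at hd
    obtain ⟨l, hl, rfl⟩ := hd
    rw [satC_cons]
    exact Or.inl (hx l hl)

end Sound

end Pool.Agent.BG.Cert
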