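import Pool.Agent.Lib.MP_291637_al.EndVF

/-!
# Coset tables

A coset table is a finite set of nodes with three partial involutions, given as packed natural
numbers. A certificate (ranks and relators) shows that three involutions satisfying the relators act
through the table.
-/

set_option autoImplicit false

namespace Pool.Agent.BG.Cert

variable {V : Type*} {f : V → V → Bool}

theorem lt_of_blt {a b : ℕ} (h : Nat.blt a b = true) : a < b := Nat.le_of_ble_eq_true h

theorem blt_of_lt {a b : ℕ} (h : a < b) : Nat.blt a b = true := Nat.ble_eq_true_of_le h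

/-- The action of a word; the first letter acts first. -/
def run (S : ℕ → Str f) : List ℕ → V → V
  | [], y => y
  | i :: w, y => run S w ((S (i % 3)).c y)

theorem run_append (S : ℕ → Str f) (a b : List ℕ) (y : V) :
    run S (a ++ b) y = run S b (run S a y) := by
  induction a generalizing y with
  | nil => rfl
  | cons i a ih => exact ih _

theorem run_reverse (S : ℕ → Str f) (a : List ℕ) (y : V) : run S a.reverse (run S a y) = y := by
  induction a generalizing y with
  | nil => rfl
  | cons i a ih =>
    rw [List.reverse_cons, run_append]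
    change (S (i % 3)).c (run S a.reverse (run S a ((S (i % 3)).c y))) = y
    rw [ih, Str.cc]

theorem run_reverse' (S : ℕ → Str f) (a : List ℕ) (y : V) : run S a (run S a.reverse y) = y := by
  have := run_reverse S a.reverse y
  rwa [List.reverse_reverse] at this

theorem run_inj (S : ℕ → Str f) (a : List ℕ) {y z : V} (e : run S a y = run S a z) : y = z := by
  rw [← run_reverse S a y, e, run_reverse]

/-- A word as a permutation. -/
def runE (S : ℕ → Str f) (a : List ℕ) : Equiv.Perm V :=
  ⟨run S a, run S a.reverse, run_reverse S a, run_reverse' S a⟩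

theorem run_f (S : ℕ → Str f) (a : List ℕ) (x y : V) : f (run S a x) (run S a y) = f x y := by
  induction a generalizing x y with
  | nil => rfl
  | cons i a ih =>
    change f (run S a _) (run S a _) = _
    rw [ih, (S (i % 3)).aut]

theorem runE_mem (S : ℕ → Str f) (a : List ℕ) : runE S a ∈ Aut f := run_f S a

/-- Rotation of a relator. -/
theorem run_rot (S : ℕ → Str f) {a b : List ℕ} (h : ∀ y, run S (a ++ b) y = y) (y : V) :
    run S (b ++ a) y = y := by
  have h1 := h (run S a.reverse y)
  rw [run_append, run_reverse'] at h1
  rw [run_append, h1, run_reverse']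

/-- A coset table. -/
structure Tab where
  n : ℕ
  T : ℕ
  par : ℕ

namespace Tab

/-- the image of the node `v` under the letter `i` -/
def get (t : Tab) (i v : ℕ) : ℕ :=
  Nat.mod (Nat.shiftRight t.T (Nat.mul 12 (Nat.add (Nat.mul 3 v) (Nat.mod i 3)))) 4096

/-- the letter leading to the parent of the node `v` -/
def p (t : Tab) (v : ℕ) : ℕ := Nat.mod (Nat.shiftRight t.par (Nat.mul 2 v)) 4

/-- the word leading to a node -/
def word (t : Tab) : ℕ → ℕ → List ℕ
  | 0, _ => []
  | k + 1, v => if v = 0 then [] else word t k (t.get (t.p v) v) ++ [t.p v]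

/-- the point of the node `v` -/
def pt (t : Tab) (S : ℕ → Str f) (v : ℕ) (y : V) : V := run S (t.word v v) y

/-- the end of a path in the table -/
def walk (t : Tab) : List ℕ → ℕ → ℕ
  | [], v => v
  | i :: w, v => walk t w (t.get i v)

theorem pt_zero (t : Tab) (S : ℕ → Str f) (y : V) : t.pt S 0 y = y := rfl

theorem get_mod (t : Tab) (i v : ℕ) : t.get (i % 3) v = t.get i v := by
  unfold get
  have : Nat.mod (i % 3) 3 = Nat.mod i 3 := Nat.mod_mod i 3
  rw [this]

/-- The table is valid. -/
structure Sound (t : Tab) (S : ℕ → Str f) : Prop where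
  npos : 0 < t.n
  lt : ∀ i v, v < t.n → t.get i v < t.n
  step : ∀ i v, v < t.n → ∀ y, (S (i % 3)).c (t.pt S v y) = t.pt S (t.get i v) y

theorem Sound.walk_lt {t : Tab} {S : ℕ → Str f} (h : t.Sound S) (w : List ℕ) {v : ℕ}
    (hv : v < t.n) : t.walk w v < t.n := by
  induction w generalizing v with
  | nil => exact hv
  | cons i w ih => exact ih (h.lt i v hv)

theorem Sound.run_pt {t : Tab} {S : ℕ → Str f} (h : t.Sound S) (w : List ℕ) {v : ℕ}
    (hv : v < t.n) (y : V) : run S w (t.pt S v y) = t.pt S (t.walk w v) y := by
  induction w generalizing v with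
  | nil => rfl
  | cons i w ih =>
    change run S w ((S (i % 3)).c _) = _
    rw [h.step i v hv, ih (h.lt i v hv)]
    rfl

theorem Sound.run_zero {t : Tab} {S : ℕ → Str f} (h : t.Sound S) (w : List ℕ) (y : V) :
    t.pt S (t.walk w 0) y = run S w y := by
  rw [← h.run_pt w h.npos, pt_zero]

/-! ### The certificate -/

/-- `f` holds below `n` -/
def allB : ℕ → (ℕ → Bool) → Bool
  | 0, _ => true
  | k + 1, g => g k && allB k g

theorem allB_spec {n : ℕ} {g : ℕ → Bool} (h : allB n g = true) {v : ℕ} (hv : v < n) :
    g v = true := by
  induction n with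
  | zero => omega
  | succ k ih =>
    rw [allB, Bool.and_eq_true] at h
    rcases Nat.lt_succ_iff_lt_or_eq.1 hv with h1 | h1
    · exact ih h.2 h1
    · rw [h1]; exact h.1

/-- packed entries of twelve bits for edges -/
def ent (R i v : ℕ) : ℕ :=
  Nat.mod (Nat.shiftRight R (Nat.mul 12 (Nat.add (Nat.mul 3 v) (Nat.mod i 3)))) 4096

/-- a path all whose edges have small rank -/
def wcheck (t : Tab) (R r : ℕ) : List ℕ → ℕ → ℕ → Bool
  | [], v, u => Nat.beq v u
  | i :: w, v, u => Nat.blt (ent R i v) r && wcheck t R r w (t.get i v) u

/-- the relator number `k` -/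
def nth : List (List ℕ) → ℕ → List ℕ
  | [], _ => []
  | a :: _, 0 => a
  | _ :: l, k + 1 => nth l k

/-- the relator, rotated, fits the edge -/
def rcheck (t : Tab) (R r i v u : ℕ) : List ℕ → Bool
  | [] => false
  | j :: w => Nat.beq (Nat.mod j 3) i && wcheck t R r w v u

/-- the edge is a tree edge or is given by a relator -/
def direct (t : Tab) (rel : List (List ℕ)) (R D i v : ℕ) : Bool :=
  (Nat.blt 0 v && Nat.beq (t.p v) i) ||
    rcheck t R (ent R i v) i v (t.get i v)
      (let w := nth rel (Nat.div (ent D i v) 8)
       w.drop (Nat.mod (ent D i v) 8) ++ w.take (Nat.mod (ent D i v) 8))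

/-- the check for one edge -/
def echeck (t : Tab) (rel : List (List ℕ)) (R D i v : ℕ) : Bool :=
  Nat.blt (t.get i v) t.n && Nat.beq (t.get i (t.get i v)) v &&
    Nat.beq (ent R i (t.get i v)) (ent R i v) &&
    (direct t rel R D i v || direct t rel R D i (t.get i v))

/-- the check for one node -/
def vcheck (t : Tab) (rel : List (List ℕ)) (R D v : ℕ) : Bool :=
  (Nat.beq v 0 || (Nat.blt (t.p v) 3 && Nat.blt (t.get (t.p v) v) v)) &&
    echeck t rel R D 0 v && echeck t rel R D 1 v && echeck t rel R D 2 v

/-- the whole check -/
def check (t : Tab) (rel : List (List ℕ)) (R D : ℕ) : Bool :=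
  Nat.blt 0 t.n && allB t.n (vcheck t rel R D)

theorem word_fuel {t : Tab} (h : ∀ v, 0 < v → v < t.n → t.get (t.p v) v < v) :
    ∀ k v, v < t.n → v ≤ k → t.word k v = t.word v v := by
  intro k
  induction k using Nat.strong_induction_on with
  | _ k ih =>
    intro v hv hk
    rcases Nat.eq_zero_or_pos v with h0 | h0
    · subst h0
      cases k <;> simp [word]
    · obtain ⟨k', rfl⟩ : ∃ k', k = k' + 1 := ⟨k - 1, by omega⟩
      obtain ⟨v', hv'⟩ : ∃ v', v = v' + 1 := ⟨v - 1, by omega⟩
      have h1 := h v h0 hv
      have e1 : t.word (k' + 1) v = t.word k' (t.get (t.p v) v) ++ [t.p v] := by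
        rw [word, if_neg (by omega)]
      have e2 : t.word v v = t.word v' (t.get (t.p v) v) ++ [t.p v] := by
        conv_lhs => rw [hv']
        rw [word, if_neg (by omega), ← hv']
      rw [e1, e2, ih k' (by omega) _ (by omega) (by omega)]
      by_cases hc : v' < k' + 1
      · rw [ih v' hc _ (by omega) (by omega)]
      · omega

theorem pt_tree {t : Tab} (h : ∀ v, 0 < v → v < t.n → t.get (t.p v) v < v) (S : ℕ → Str f)
    {v : ℕ} (h0 : 0 < v) (hv : v < t.n) (y : V) :
    t.pt S v y = (S (t.p v % 3)).c (t.pt S (t.get (t.p v) v) y) := by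
  have h1 := h v h0 hv
  obtain ⟨v', hv'⟩ : ∃ v', v = v' + 1 := ⟨v - 1, by omega⟩
  have e2 : t.word v v = t.word v' (t.get (t.p v) v) ++ [t.p v] := by
    conv_lhs => rw [hv']
    rw [word, if_neg (by omega), ← hv']
  unfold pt
  rw [e2, run_append, word_fuel h v' _ (by omega) (by omega)]
  rfl

theorem ent_mod (R i v : ℕ) : ent R (i % 3) v = ent R i v := by
  unfold ent
  have : Nat.mod (i % 3) 3 = Nat.mod i 3 := Nat.mod_mod i 3
  rw [this]

theorem nth_mem (l : List (List ℕ)) (k : ℕ) : nth l k ∈ l ∨ nth l k = [] := by
  induction l generalizing k with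
  | nil => right; rfl
  | cons a l ih =>
    cases k with
    | zero => left; simp [nth]
    | succ k =>
      rcases ih k with h | h
      · left; simp [nth, h]
      · right; exact h

theorem check_sound {t : Tab} {rel : List (List ℕ)} {R D : ℕ} (hc : check t rel R D = true)
    (S : ℕ → Str f) (hrel : ∀ w ∈ rel, ∀ y, run S w y = y) : t.Sound S := by
  rw [check, Bool.and_eq_true] at hc
  obtain ⟨hn, hall⟩ := hc
  have hv : ∀ v, v < t.n → vcheck t rel R D v = true := fun v hv => allB_spec hall hv
  have htree : ∀ v, 0 < v → v < t.n → t.p v < 3 ∧ t.get (t.p v) v < v := by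
    intro v h0 h1
    have h2 := hv v h1
    simp only [vcheck, Bool.and_eq_true, Bool.or_eq_true] at h2
    rcases h2.1.1.1 with h3 | h3
    · have := Nat.eq_of_beq_eq_true h3
      omega
    · exact ⟨lt_of_blt h3.1, lt_of_blt h3.2⟩
  have hedge : ∀ i, i < 3 → ∀ v, v < t.n → echeck t rel R D i v = true := by
    intro i hi v h1
    have h2 := hv v h1
    simp only [vcheck, Bool.and_eq_true] at h2
    interval_cases i
    · exact h2.1.1.2
    · exact h2.1.2
    · exact h2.2
  have hlt : ∀ i, i < 3 → ∀ v, v < t.n → t.get i v < t.n := by
    intro i hi v h1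
    have h2 := hedge i hi v h1
    simp only [echeck, Bool.and_eq_true] at h2
    exact lt_of_blt h2.1.1.1
  have main : ∀ r, ∀ i, i < 3 → ∀ v, v < t.n → ent R i v < r →
      ∀ y, (S (i % 3)).c (t.pt S v y) = t.pt S (t.get i v) y := by
    intro r
    induction r with
    | zero => intro i _ v _ h; omega
    | succ r ih =>
      -- paths of small rank
      have hw : ∀ (w : List ℕ) (v u : ℕ), v < t.n → wcheck t R r w v u = true → ∀ y,
          run S w (t.pt S v y) = t.pt S u y := by
        intro w
        induction w with
        | nil =>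
          intro v u _ h y
          have := Nat.eq_of_beq_eq_true h
          rw [this]; rfl
        | cons j w ihw =>
          intro v u hvn h y
          rw [wcheck, Bool.and_eq_true] at h
          have hj : j % 3 < 3 := Nat.mod_lt _ (by norm_num)
          have h1 : ent R (j % 3) v < r := by rw [ent_mod]; exact lt_of_blt h.1
          change run S w ((S (j % 3)).c _) = _
          have h2 := ih (j % 3) hj v hvn h1 y
          rw [Nat.mod_mod, get_mod] at h2
          rw [h2]
          refine ihw _ _ ?_ h.2 y
          rw [← get_mod]
          exact hlt _ hj v hvn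
      have hdir : ∀ i, i < 3 → ∀ v, v < t.n → ent R i v ≤ r → t.get i (t.get i v) = v →
          direct t rel R D i v = true →
          ∀ y, (S (i % 3)).c (t.pt S v y) = t.pt S (t.get i v) y := by
        intro i hi v hvn hr hinv hd y
        have hmod : i % 3 = i := Nat.mod_eq_of_lt hi
        rw [direct, Bool.or_eq_true] at hd
        rcases hd with hd | hd
        · rw [Bool.and_eq_true] at hd
          have h0 : 0 < v := lt_of_blt hd.1
          have hp : t.p v = i := Nat.eq_of_beq_eq_true hd.2
          rw [pt_tree (fun v a b => (htree v a b).2) S h0 hvn, hp, Str.cc]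
        · set w := nth rel (Nat.div (ent D i v) 8) with hwdef
          set k := Nat.mod (ent D i v) 8 with hk
          change rcheck t R (ent R i v) i v (t.get i v) (w.drop k ++ w.take k) = true at hd
          have hrot : ∀ y, run S (w.drop k ++ w.take k) y = y := by
            intro y
            rcases nth_mem rel (Nat.div (ent D i v) 8) with h1 | h1
            · apply run_rot S
              intro y
              rw [List.take_append_drop]
              exact hrel _ h1 y
            · rw [← hwdef] at h1
              rw [h1]; simp [run]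
          revert hd hrot
          generalize w.drop k ++ w.take k = l
          intro hd hrot
          cases l with
          | nil => simp [rcheck] at hd
          | cons j l =>
            rw [rcheck, Bool.and_eq_true] at hd
            have hj : j % 3 = i := Nat.eq_of_beq_eq_true hd.1
            have h2 : wcheck t R r l v (t.get i v) = true := by
              have : ∀ (l : List ℕ) (a u : ℕ), wcheck t R (ent R i v) l a u = true →
                  wcheck t R r l a u = true := by
                intro l
                induction l with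
                | nil => intro a u h; exact h
                | cons b l ihl =>
                  intro a u h
                  rw [wcheck, Bool.and_eq_true] at h ⊢
                  refine ⟨?_, ihl _ _ h.2⟩
                  have := lt_of_blt h.1
                  exact blt_of_lt (by omega)
              exact this _ _ _ hd.2
            have h3 := hw l v (t.get i v) hvn h2 y
            have h4 := hrot ((S (i % 3)).c (t.pt S v y))
            change run S l ((S (j % 3)).c _) = _ at h4
            rw [hj, hmod, Str.cc, h3] at h4
            rw [hmod, ← h4]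
      intro i hi v hvn hr y
      have h2 := hedge i hi v hvn
      simp only [echeck, Bool.and_eq_true, Bool.or_eq_true] at h2
      obtain ⟨⟨⟨h3, h4⟩, h5⟩, h6⟩ := h2
      have h3' := lt_of_blt h3
      have h4' : t.get i (t.get i v) = v := Nat.eq_of_beq_eq_true h4
      have h5' : ent R i (t.get i v) = ent R i v := Nat.eq_of_beq_eq_true h5
      rcases h6 with h6 | h6
      · exact hdir i hi v hvn (by omega) h4' h6 y
      · have h7 := hdir i hi (t.get i v) h3' (by omega) (by rw [h4']) h6 y
        rw [h4'] at h7
        rw [← h7, Str.cc]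
  refine ⟨lt_of_blt hn, ?_, ?_⟩
  · intro i v h1
    rw [← get_mod]
    exact hlt _ (Nat.mod_lt _ (by norm_num)) v h1
  · intro i v h1 y
    have := main (ent R (i % 3) v + 1) (i % 3) (Nat.mod_lt _ (by norm_num)) v h1 (by omega) y
    rw [Nat.mod_mod, get_mod] at this
    exact this

end Tab

end Pool.Agent.BG.Cert
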