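import Pool.Agent.Lib.MP_291637_al_h3.Rules
import Pool.Agent.Lib.MP_291637_al_h3.T128

/-!
# The label table of the group of order 128
-/

set_option autoImplicit false

namespace Pool.Agent.BG.Cert

/-- The links: own0; b; tl 0 [] 2; tl 0 [2] 1; own1; a; tl 1 [] 2; tl 1 [2] 0; own2; tl 2 [] 0; tl 2 [] 1. -/
def links128 : List (ℕ × List ℕ) :=
  [(0, [0]),
   (0, [1]),
   (0, [2, 0, 2]),
   (0, [2, 1, 2, 0, 2, 1, 2]),
   (1, [1]),
   (1, [0]),
   (1, [2, 1, 2]),
   (1, [2, 0, 2, 1, 2, 0, 2]),
   (2, [2]),
   (2, [0, 2, 0]),
   (2, [1, 2, 1])]

/-- The labels. -/
def l128 : Lab := ⟨0x5a003470086300a4a00357000530003a01e47004430044a01e570063100c3a003470044300a4a003560063300029000470062200c39000370043200a39003470084300449003570005300c5a010350065300c2a000260064300c4a012470004300c4901027008410043901e470044100a2901e57006330002901046004230045a01256004330043a000360043300a4a010450044300a3a010370005300c49000470006300c39000370085300a4a010270084300a3a002370085300a4a002460064300039010360063300039016460062300049016370045200439012570085200a2901247006430004a00157006530004a00067006430003a00057004530045a001670046300439002570045300449002470004200c4a01e370003200c3a001260082300a5a01e46008430042901e160063300c29002250064300c39002170083200439001470084200a18010370061200c2a0024700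62100c3a00256008330042a01636004130043a00346004230042a003370063300c39003270044200429003350063200c49001370005200c3a016270004200c4a016350083300a39012350043300a3a01e260042300a29010270042200a1a012370043100a2a01246000230002a01e56000330001a01e470084200a29016370083200a19016450002300c2a001360001300c29012260062200c2a001360063100c5a016450064100c4a016370043300a39001470044300a5a002570045300a4a00247000430004a00157000530004a00067000630005a00057008530043a00167008430043a01257008330044a012470064300c29001370063300c18016270062300c3a012160081300a3901e250082300a4901e17000320004901227000420003901037000520003901627000420002901636008330042a01046008230042a01e14006310002a01225006210001901e25004210041801217004320042a01027004420043a01036000130003a01646000230002a01637008310041801e27008220040001e350003300c2a002260002300c1a00214004110042900227006220001a01037006310001a016270064100029003170063200019003250042200a00016350043100a1a001260042100a18002160041200a19012140083100400012250002100c19010350001000c00010450082100a19002350081000a1a00325008210042a003160001100c2a000260000000c1a000360081100a18003260080000a180001500812004190010000822004290011500612000290000000622000190001500410004180010000400004000031400011000000022500021000000011500010000000000000000000, links128⟩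

theorem lcheck128 : Lab.check t128 l128 = true := by decide +kernel

end Pool.Agent.BG.Cert
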