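import Pool.Agent.Lib.MP_291637_al_h3.Cases
import Pool.Agent.Lib.MP_291637_al_h3.L128

/-!
# The certificate for commuting structures
-/

set_option autoImplicit false

namespace Pool.Agent.BG.Cert

/-- rule instances -/
def c0i : List Ins :=
  [.idr 1 0 1 [5] [] [true, true, true, true, false, false, true, true] 64,
   .idr 1 0 1 [5] [] [true, true, false, true, true, false, false, true] 22,
   .idr 1 1 0 [5] [] [true, true, false, true, true, false, true, true] 64,
   .idr 1 0 1 [8] [2] [false, true, true, true, true, false, true, true] 64,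
   .idr 1 0 1 [8] [2] [false, true, true, true, true, false, false, true] 32,
   .idr 1 0 1 [8] [2] [false, true, false, true, false, false, false, true] 59,
   .fpf 1 2 [0, 1],
   .fpf 1 2 [2, 1, 2, 0],
   .nr 1 1 2 17,
   .el 1 2 [0] 32,
   .efz [2, 1] 64,
   .mv 1 [0, 2, 0, 2] 11,
   .mv 1 [0, 2, 0, 2] 76,
   .mv 1 [0, 2, 0, 2] 78,
   .mv 1 [2, 0] 11,
   .mv 2 [0] 14,
   .mv 2 [0, 1] 32,
   .mv 2 [0, 1] 66,
   .mv 2 [1, 2, 0, 1] 11,
   .mv 2 [1, 2, 0, 1] 14,
   .mv 2 [2, 1, 2, 0] 32]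

/-- steps -/
def c0s : List Rup.Step :=
  [(69, [6], [61, 57]),
   (70, [368], [61, 59, 69, 29]),
   (71, [2513], [62, 60, 69, 26]),
   (72, [74], [66, 59, 71, 52]),
   (73, [42], [66, 60, 70, 48]),
   (74, [1041], [72, 60, 64, 38]),
   (75, [2129], [73, 71, 64, 42]),
   (76, [2063], [75, 59, 15]),
   (77, [135], [75, 70, 62, 18]),
   (78, [714, 971, 1038, 522, 586], [8, 72, 73, 5, 6]),
   (79, [971, 586], [69, 77, 76, 73, 72, 12, 14, 1, 78]),
   (80, [714, 586], [69, 77, 8, 72, 76, 73, 79, 12, 6, 4]),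
   (81, [586], [77, 69, 7, 73, 76, 72, 12, 79, 80, 2, 3]),
   (82, [2448], [81, 59, 63, 34]),
   (83, [3889], [81, 65, 74, 53]),
   (84, [], [82, 83, 62, 69, 22])]

/-- the case -/
def c0 : Case :=
  ⟨[261, 197, 41, 73, 585, 520, 3021, 3629], 1, [1, 2], [1, 2, 0, 1, 2, 0], c0i, c0s⟩

theorem c0_check : c0.check t128 l128 nrp 12 = true := by decide +kernel

/-- rule instances -/
def c1i : List Ins :=
  [.idr 1 0 1 [5] [] [true, true, false, false, true, true, true, true] 12,
   .idr 1 0 1 [5] [] [true, false, false, true, true, false, true, true] 11,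
   .idr 1 0 1 [5] [] [false, true, true, false, false, true, true, true] 9,
   .idr 1 0 1 [8] [] [true, true, true, true, true, true, false, false] 12,
   .idr 1 0 1 [8] [] [true, false, true, false, false, false, true, false] 5,
   .idr 1 1 0 [5] [] [true, false, true, true, false, false, true, true] 11,
   .idr 1 1 0 [5] [1] [true, true, true, false, false, true, true, true] 12,
   .idr 1 0 1 [8] [2] [true, false, true, false, true, false, false, false] 105,
   .idr 1 1 0 [8] [2] [false, false, true, false, true, false, false, false] 116,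
   .einv 1 [0, 2, 0, 1, 2, 1],
   .fpf 1 2 [],
   .fpf 1 2 [0],
   .fpf 1 2 [1],
   .fpf 1 2 [0, 2, 1, 2, 0],
   .nr 1 1 2 30,
   .efz [2, 0] 12,
   .efz [2, 0, 1] 121,
   .efz [2, 0, 2, 1] 121,
   .mv 1 [] 1,
   .mv 1 [] 15,
   .mv 1 [0, 2] 8,
   .mv 1 [0, 2] 51,
   .mv 2 [0] 1,
   .mv 2 [0] 2,
   .mv 2 [0, 1] 1,
   .mv 2 [0, 1] 2,
   .mv 2 [0, 1] 8,
   .mv 2 [0, 1] 15,
   .mv 2 [1, 2, 0, 1] 17,
   .mv 2 [1, 2, 0, 1] 38,
   .mv 2 [2, 1, 2, 0] 2]

/-- steps -/
def c1s : List Rup.Step :=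
  [(89, [6], [81, 77]),
   (90, [80], [81, 79, 89, 26]),
   (91, [497], [82, 80, 89, 33]),
   (92, [10], [83, 79, 80, 44]),
   (93, [106], [83, 90, 91, 48]),
   (94, [528], [84, 79, 93, 50]),
   (95, [561], [84, 80, 93, 57]),
   (96, [624], [84, 90, 92, 54]),
   (97, [593], [84, 91, 92, 61]),
   (98, [399], [94, 80, 20]),
   (99, [263], [94, 81, 91, 29]),
   (100, [3887], [96, 97, 93, 86, 21, 23, 69]),
   (101, [3727], [100, 10]),
   (102, [42, 587, 970], [14, 93, 92, 101, 9, 8]),
   (103, [587, 970, 714], [92, 98, 93, 7, 102]),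
   (104, [522, 42, 970], [89, 99, 11, 92, 93, 98, 17, 103, 3, 4]),
   (105, [42, 970], [89, 99, 12, 92, 93, 13, 17, 103, 104, 5, 6]),
   (106, [970, 714], [13, 93, 92, 98, 103, 105, 1, 2]),
   (107, [970], [99, 89, 17, 106]),
   (108, [714], [107, 89, 99, 18]),
   (109, [1648], [108, 90, 85, 74]),
   (110, [3345], [108, 95, 86, 65]),
   (111, [], [109, 110, 82, 89, 38])]

/-- the case -/
def c1 : Case :=
  ⟨[5, 133, 40, 73, 585, 521, 173, 1197], 1, [0], [0, 2], c1i, c1s⟩

theorem c1_check : c1.check t128 l128 nrp 12 = true := by decide +kernel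

/-- rule instances -/
def c2i : List Ins :=
  [.idr 1 0 1 [5] [] [false, true, true, true, false, false, true, true] 22,
   .idr 1 0 1 [5] [0] [true, true, false, true, true, false, true, true] 25,
   .idr 1 1 0 [5] [1] [true, true, false, false, true, true, true, true] 25,
   .idr 1 0 1 [5] [2] [true, false, false, false, true, false, true, false] 11,
   .idr 1 0 1 [8] [2] [true, true, true, true, true, false, false, true] 25,
   .idr 1 1 0 [5] [2] [true, false, true, false, false, false, true, false] 11,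
   .fpf 1 2 [0, 1],
   .fpf 1 2 [1],
   .nr 1 0 2 38,
   .efz [0, 1, 2, 1, 2, 0] 25,
   .mv 0 [0, 2] 5,
   .mv 0 [0, 2] 32,
   .mv 0 [0, 2] 49,
   .mv 0 [1, 2, 1, 2] 49,
   .mv 2 [0, 1] 5,
   .mv 2 [1] 32,
   .mv 2 [2, 1, 2, 0] 35,
   .mv 2 [0, 2, 1, 2, 0] 5,
   .mv 2 [0, 2, 1, 2, 0] 8]

/-- steps -/
def c2s : List Rup.Step :=
  [(63, [2], [55, 51]),
   (64, [176], [55, 53, 63, 15]),
   (65, [1585], [56, 54, 63, 28]),
   (66, [74], [60, 53, 65, 50]),
   (67, [106], [60, 54, 64, 46]),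
   (68, [2064], [66, 64, 58, 32]),
   (69, [815], [68, 54, 13]),
   (70, [323], [68, 55, 65, 23]),
   (71, [523, 586, 970], [67, 69, 66, 8, 6, 2]),
   (72, [43, 586, 970], [69, 66, 67, 8, 4, 3]),
   (73, [586, 970], [69, 66, 67, 7, 71, 72, 1, 5]),
   (74, [970], [70, 63, 12, 73]),
   (75, [1137], [74, 65, 59, 40]),
   (76, [1040], [74, 57, 68, 35]),
   (77, [], [76, 75, 55, 63, 20])]

/-- the case -/
def c2 : Case :=
  ⟨[129, 385, 105, 73, 585, 968, 3373, 3469], 0, [0, 2], [0, 2, 0, 1, 2, 1], c2i, c2s⟩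

theorem c2_check : c2.check t128 l128 nrp 12 = true := by decide +kernel

/-- rule instances -/
def c3i : List Ins :=
  [.idr 1 0 1 [5] [0] [true, false, true, true, false, true, true, true] 106,
   .idr 1 0 1 [8] [0] [true, true, false, true, true, false, true, true] 25,
   .idr 1 0 1 [8] [0] [true, true, false, false, true, true, true, false] 22,
   .idr 1 1 0 [8] [1] [true, true, false, false, true, true, true, true] 25,
   .idr 1 0 1 [5] [2] [true, true, true, true, true, false, false, true] 25,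
   .idr 1 0 1 [8] [2] [true, false, false, false, true, false, true, false] 11,
   .idr 1 1 0 [8] [2] [true, false, true, false, false, false, true, false] 11,
   .fpf 1 2 [0, 1],
   .fpf 1 2 [1],
   .nr 1 0 2 38,
   .efz [1, 2, 1] 25,
   .el 1 2 [0, 1] 106,
   .mv 0 [] 0,
   .mv 0 [] 21,
   .mv 0 [1, 2] 11,
   .mv 2 [0, 1] 0,
   .mv 2 [0, 1] 11,
   .mv 2 [1] 0,
   .mv 2 [1] 1,
   .mv 2 [2, 1, 2, 0] 0,
   .mv 2 [0, 2, 1, 2, 0] 25]

/-- steps -/
def c3s : List Rup.Step :=
  [(66, [2], [58, 54]),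
   (67, [48], [58, 56, 66, 19]),
   (68, [689], [59, 57, 66, 26]),
   (69, [107], [60, 56, 57, 39]),
   (70, [75], [60, 67, 68, 43]),
   (71, [720], [61, 56, 70, 33]),
   (72, [817], [61, 57, 70, 36]),
   (73, [815], [71, 57, 15]),
   (74, [323], [71, 58, 68, 22]),
   (75, [586], [74, 66, 62, 56, 63, 72, 12, 49, 52]),
   (76, [970], [75, 66, 74, 13]),
   (77, [3407], [75, 70, 16]),
   (78, [42], [9, 69, 70, 76, 75, 73, 6, 4]),
   (79, [522], [9, 76, 70, 75, 73, 69, 7, 2]),
   (80, [10], [78, 8, 75, 69, 70, 79, 3]),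
   (81, [714], [79, 69, 80, 77, 76, 75, 78, 1]),
   (82, [], [79, 81, 73, 76, 78, 70, 69, 75, 5])]

/-- the case -/
def c3 : Case :=
  ⟨[1, 321, 105, 72, 584, 968, 365, 525], 0, [], [1, 2, 1], c3i, c3s⟩

theorem c3_check : c3.check t128 l128 nrp 12 = true := by decide +kernel

/-- rule instances -/
def c4i : List Ins :=
  [.idr 1 0 1 [8] [] [true, true, false, true, true, false, true, true] 25,
   .idr 1 0 1 [8] [] [false, true, true, true, false, false, true, true] 22,
   .idr 1 1 0 [8] [] [true, true, true, true, false, false, true, true] 25,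
   .idr 1 0 1 [5] [2] [true, true, true, true, true, false, false, true] 25,
   .idr 1 0 1 [5] [2] [false, true, false, true, false, false, false, true] 59,
   .idr 1 1 0 [5] [2] [false, true, true, true, true, false, false, true] 41,
   .fpf 1 2 [0, 1],
   .fpf 1 2 [2, 1, 2, 0],
   .nr 1 0 2 38,
   .efz [0, 1, 2, 1, 2, 0] 25,
   .el 1 2 [1] 41,
   .mv 0 [0, 2] 5,
   .mv 0 [0, 2] 49,
   .mv 0 [1, 2, 1, 2] 49,
   .mv 0 [1, 2, 1, 2] 74,
   .mv 2 [0, 1] 5,
   .mv 2 [0, 1] 41,
   .mv 2 [1] 41,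
   .mv 2 [2, 1, 2, 0] 8,
   .mv 2 [0, 2, 1, 2, 0] 5,
   .mv 2 [0, 2, 1, 2, 0] 8]

/-- steps -/
def c4s : List Rup.Step :=
  [(69, [2], [61, 57]),
   (70, [176], [61, 59, 69, 17]),
   (71, [1585], [62, 60, 69, 26]),
   (72, [75], [66, 59, 71, 54]),
   (73, [107], [66, 60, 70, 50]),
   (74, [1329], [72, 60, 64, 40]),
   (75, [2064], [72, 70, 64, 36]),
   (76, [815], [75, 60, 13]),
   (77, [323], [75, 61, 71, 21]),
   (78, [715, 43, 1326, 971, 587], [76, 72, 73, 6, 4]),
   (79, [715, 971], [69, 77, 73, 72, 8, 15, 11, 5, 78]),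
   (80, [714, 587, 971], [7, 72, 73, 76, 3, 1, 2]),
   (81, [971], [77, 69, 11, 79, 80]),
   (82, [3440], [81, 59, 65, 48]),
   (83, [2385], [81, 63, 74, 43]),
   (84, [], [83, 82, 62, 69, 29])]

/-- the case -/
def c4 : Case :=
  ⟨[129, 385, 104, 72, 584, 969, 3373, 3469], 0, [0, 2], [0, 2, 0, 1, 2, 1], c4i, c4s⟩

theorem c4_check : c4.check t128 l128 nrp 12 = true := by decide +kernel

/-- rule instances -/
def c5i : List Ins :=
  [.idr 0 0 1 [5] [] [false, true, true, true, true, true, true, false] 6,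
   .idr 0 0 1 [5] [] [false, true, true, false, true, true, true, false] 94,
   .idr 0 0 1 [5] [] [false, false, true, false, true, false, true, false] 94,
   .idr 0 1 0 [8] [] [true, true, false, true, true, true, true, true] 94,
   .idr 0 1 0 [8] [] [true, false, false, true, true, true, true, true] 74,
   .idr 0 1 0 [8] [] [true, false, false, true, true, false, true, true] 5,
   .idr 0 1 0 [8] [1] [true, true, true, false, false, true, true, true] 12,
   .idr 0 1 0 [8] [1] [true, true, false, false, true, true, true, true] 25,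
   .idr 0 0 1 [5] [2] [false, false, true, false, true, false, true, false] 94,
   .fpf 0 2 [1, 2, 0, 1],
   .efx [0, 2, 0, 2] 10,
   .efx [0, 2, 0, 2] 31,
   .el 0 2 [0] 12,
   .el 0 2 [0] 25,
   .el 0 2 [1] 74,
   .mv 1 [] 0,
   .mv 1 [0, 2] 5,
   .mv 2 [] 3,
   .mv 2 [] 30,
   .mv 2 [0] 0,
   .mv 2 [0, 1] 3,
   .mv 2 [0, 1] 23,
   .mv 2 [1, 2, 0, 1] 105,
   .mv 2 [0, 2, 1, 2, 0] 0,
   .mv 2 [0, 2, 1, 2, 0] 5]

/-- steps -/
def c5s : List Rup.Step :=
  [(73, [6], [65, 61]),
   (74, [112], [65, 63, 73, 22]),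
   (75, [753], [66, 64, 73, 25]),
   (76, [43], [68, 63, 64, 38]),
   (77, [397], [70, 68, 15]),
   (78, [813], [70, 68, 17]),
   (79, [73, 585, 204, 105], [10, 68, 70, 69, 67, 1, 2]),
   (80, [105, 204], [67, 69, 70, 68, 10, 3, 9, 79]),
   (81, [585, 104], [70, 71, 68, 67, 69, 78, 8, 6]),
   (82, [584, 712, 104, 2380], [10, 70, 68, 67, 5, 4]),
   (83, [104], [77, 68, 69, 67, 19, 81, 7, 82]),
   (84, [72], [83, 10, 68, 70, 69, 67, 3]),
   (85, [204], [83, 80]),
   (86, [1200], [84, 74, 76, 44]),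
   (87, [977], [84, 75, 76, 47]),
   (88, [337], [85, 75, 11]),
   (89, [1008], [86, 85, 14]),
   (90, [107], [88, 74, 67, 30]),
   (91, [971], [89, 67, 87, 33]),
   (92, [3889], [90, 64, 69, 59]),
   (93, [3376], [91, 63, 69, 56]),
   (94, [], [93, 92, 70, 76, 52])]

/-- the case -/
def c5 : Case :=
  ⟨[5, 133, 9, 41, 968, 520, 173, 1197], 1, [], [0, 2, 0], c5i, c5s⟩

theorem c5_check : c5.check t128 l128 nrp 12 = true := by decide +kernel

/-- rule instances -/
def c6i : List Ins :=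
  [.idr 0 0 1 [5] [] [true, true, false, true, true, true, true, false] 106,
   .idr 0 1 0 [5] [] [true, true, false, true, true, true, true, false] 95,
   .idr 0 1 0 [5] [] [true, false, false, false, true, false, true, false] 5,
   .idr 0 1 0 [5] [2] [true, true, false, false, true, true, true, false] 5,
   .idr 0 1 0 [5] [2] [true, false, false, false, true, false, true, false] 5,
   .fpf 0 2 [0],
   .efx [1, 2, 0, 1, 2, 0, 1, 2, 1, 2] 11,
   .efx [1, 2, 0, 1, 2, 0, 1, 2, 1, 2] 13,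
   .efx [1, 2, 0, 1, 2, 0, 1, 2, 1, 2] 25,
   .efx [1, 2, 0, 1, 2, 0, 1, 2, 1, 2] 66,
   .el 0 2 [0] 106,
   .mv 1 [0, 2, 0, 2] 78,
   .mv 1 [2, 0] 11,
   .mv 2 [] 13,
   .mv 2 [] 32,
   .mv 2 [] 109,
   .mv 2 [0, 1] 11,
   .mv 2 [0, 1] 14,
   .mv 2 [0, 1] 32,
   .mv 2 [0, 1] 66,
   .mv 2 [1] 71,
   .mv 2 [1, 2, 0, 1] 11,
   .mv 2 [1, 2, 0, 1] 14,
   .mv 2 [0, 1, 2, 0, 1] 39,
   .mv 2 [0, 2, 1, 2, 0] 87]

/-- steps -/
def c6s : List Rup.Step :=
  [(85, [6], [77, 73]),
   (86, [368], [77, 75, 85, 21]),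
   (87, [2513], [78, 76, 85, 18]),
   (88, [72], [82, 6, 81, 80, 79, 3]),
   (89, [584], [82, 6, 81, 80, 79, 5]),
   (90, [3405], [82, 80, 16]),
   (91, [75], [82, 75, 87, 62]),
   (92, [43], [82, 76, 86, 58]),
   (93, [1264], [88, 75, 92, 44]),
   (94, [1041], [88, 76, 91, 48]),
   (95, [816], [88, 86, 91, 40]),
   (96, [2129], [88, 87, 92, 52]),
   (97, [712], [89, 6, 81, 82, 80, 79, 4]),
   (98, [968], [90, 88, 97, 80, 89, 81, 79, 1]),
   (99, [3052], [97, 82, 88, 81, 89, 80, 79, 2]),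
   (100, [3504], [99, 86, 7]),
   (101, [433], [99, 87, 9]),
   (102, [1072], [99, 95, 11]),
   (103, [2289], [99, 96, 14]),
   (104, [11], [100, 76, 79, 34]),
   (105, [107], [101, 75, 79, 25]),
   (106, [715], [102, 79, 94, 29]),
   (107, [2801], [103, 81, 104, 55]),
   (108, [3632], [105, 97, 93, 68]),
   (109, [], [107, 108, 98, 106, 71])]

/-- the case -/
def c6 : Case :=
  ⟨[261, 197, 9, 40, 104, 521, 3021, 3629], 1, [1, 2], [1, 2, 0, 1, 2, 0], c6i, c6s⟩

theorem c6_check : c6.check t128 l128 nrp 12 = true := by decide +kernel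

/-- rule instances -/
def c7i : List Ins :=
  [.idr 1 0 1 [5] [] [false, true, true, true, false, false, true, true] 22,
   .idr 1 0 1 [5] [0] [true, true, false, true, true, false, true, true] 25,
   .idr 1 1 0 [5] [1] [true, true, false, false, true, true, true, true] 25,
   .idr 1 0 1 [5] [2] [true, false, false, false, true, false, true, false] 11,
   .idr 1 0 1 [8] [2] [true, true, true, true, true, false, false, true] 25,
   .idr 1 1 0 [5] [2] [true, false, true, false, false, false, true, false] 11,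
   .fpf 1 2 [0, 1],
   .fpf 1 2 [1],
   .nr 1 0 2 38,
   .efz [1, 2, 1] 25,
   .mv 0 [] 0,
   .mv 0 [] 21,
   .mv 0 [1, 2] 11,
   .mv 0 [1, 2] 59,
   .mv 2 [0, 1] 0,
   .mv 2 [0, 1] 21,
   .mv 2 [1] 0,
   .mv 2 [1] 1,
   .mv 2 [2, 1, 2, 0] 0,
   .mv 2 [0, 2, 1, 2, 0] 26]

/-- steps -/
def c7s : List Rup.Step :=
  [(67, [2], [59, 55]),
   (68, [48], [59, 57, 67, 16]),
   (69, [689], [60, 58, 67, 23]),
   (70, [106], [61, 57, 58, 42]),
   (71, [74], [61, 68, 69, 46]),
   (72, [720], [62, 57, 71, 32]),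
   (73, [849], [62, 69, 70, 35]),
   (74, [815], [72, 58, 14]),
   (75, [323], [72, 59, 69, 19]),
   (76, [523, 970, 586], [70, 74, 71, 8, 6, 2]),
   (77, [43, 970, 586], [74, 71, 70, 8, 4, 3]),
   (78, [970, 586], [74, 71, 70, 7, 76, 77, 1, 5]),
   (79, [586], [75, 67, 11, 78]),
   (80, [1904], [79, 57, 63, 48]),
   (81, [3345], [79, 73, 64, 51]),
   (82, [], [80, 81, 60, 67, 28])]

/-- the case -/
def c7 : Case :=
  ⟨[1, 321, 104, 73, 585, 969, 365, 525], 0, [], [1, 2, 1], c7i, c7s⟩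

theorem c7_check : c7.check t128 l128 nrp 12 = true := by decide +kernel

/-- the cases -/
def cases128 : List Case := [c0, c1, c2, c3, c4, c5, c6, c7]

/-- rule instances of the master -/
def m128i : List Ins :=
  [.idr 0 0 1 [5] [] [true, true, true, true, true, true, true, false] 9,
   .idr 0 0 1 [5] [] [true, true, true, true, false, true, true, false] 95,
   .idr 0 0 1 [5] [] [true, true, false, true, true, true, false, false] 53,
   .idr 0 0 1 [5] [] [false, true, true, true, false, true, true, false] 53,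
   .idr 0 0 1 [5] [] [false, true, true, true, false, false, true, true] 22,
   .idr 0 0 1 [5] [] [false, true, false, true, false, true, false, false] 53,
   .idr 0 0 1 [5] [] [false, true, false, true, false, false, false, true] 22,
   .idr 0 0 1 [8] [] [true, false, true, true, false, false, true, true] 5,
   .idr 0 0 1 [8] [] [false, true, true, false, false, true, true, true] 9,
   .idr 0 0 1 [8] [] [false, true, false, false, false, true, false, true] 9,
   .idr 0 0 1 [5] [0] [false, false, true, true, true, false, false, true] 48,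
   .idr 0 0 1 [8] [0] [true, true, true, true, false, true, true, true] 53,
   .idr 0 0 1 [8] [0] [true, true, true, true, false, false, true, true] 12,
   .idr 0 0 1 [8] [0] [true, true, true, false, false, true, true, false] 9,
   .idr 0 0 1 [8] [0] [true, true, false, true, true, true, true, true] 59,
   .idr 0 0 1 [8] [0] [true, false, true, true, false, false, true, true] 9,
   .idr 0 0 1 [8] [0] [true, false, true, false, false, false, true, false] 9,
   .idr 0 0 1 [8] [0] [true, false, false, true, true, true, true, true] 100,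
   .idr 0 0 1 [8] [0] [true, false, false, true, true, false, true, true] 22,
   .idr 0 1 0 [8] [1] [true, true, true, false, false, true, true, true] 12,
   .idr 0 1 0 [8] [1] [true, true, false, false, true, true, true, true] 25,
   .idr 0 0 1 [5] [2] [true, true, false, true, true, false, false, true] 59,
   .idr 0 0 1 [8] [2] [false, false, true, true, true, true, false, false] 42,
   .idr 0 1 0 [5] [2] [true, true, true, true, false, false, true, true] 100,
   .idr 0 1 0 [5] [2] [true, false, true, false, false, false, true, false] 11,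
   .idr 0 1 0 [8] [2] [true, false, false, true, true, true, true, false] 65,
   .ecl 0 [1, 2, 0, 1] 16,
   .ecl 0 [0, 2, 0, 1] 37,
   .ecl 0 [0, 2, 0, 1, 2, 1, 2, 0] 108,
   .ecl 0 [1, 2, 0, 1, 2, 0, 2, 1] 113,
   .fpf 0 2 [],
   .fpf 0 2 [0],
   .fpf 0 2 [0, 1],
   .fpf 0 2 [1],
   .fpf 0 2 [1, 2, 0, 1],
   .fpf 0 2 [2, 1, 2, 0],
   .fpf 0 2 [0, 1, 2, 0, 1],
   .fpf 0 2 [0, 2, 1, 2, 0],
   .nr 0 0 2 0,
   .nr 0 1 2 0,
   .nr 0 1 2 1,
   .nr 0 0 2 2,
   .nr 0 0 2 11,
   .nr 0 0 2 13,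
   .nr 0 1 2 15,
   .nr 0 0 2 28,
   .nr 0 1 2 30,
   .nr 0 0 2 38,
   .el 0 0 [] 12,
   .el 0 0 [0, 2] 12,
   .el 0 2 [0, 1] 12,
   .el 0 2 [] 25,
   .el 0 2 [] 42,
   .el 0 2 [] 48,
   .el 0 2 [] 64,
   .el 0 2 [] 65,
   .el 0 2 [] 74,
   .el 0 2 [1] 95,
   .el 0 2 [] 100]

/-- steps of the master -/
def m128s : List Rup.Step :=
  [(113, [260, 196, 40, 72, 584, 521, 3628], [35, 101]),
   (114, [4, 132, 41, 72, 584, 520, 1196], [32, 102]),
   (115, [128, 384, 104, 72, 584, 969, 3468], [38, 103]),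
   (116, [0, 320, 104, 73, 585, 969, 524], [34, 104]),
   (117, [128, 384, 105, 73, 585, 968, 3468], [38, 105]),
   (118, [4, 132, 8, 40, 969, 521, 1196], [32, 106]),
   (119, [260, 196, 8, 41, 105, 520, 3628], [35, 107]),
   (120, [0, 320, 105, 72, 584, 968, 524], [34, 108]),
   (121, [813], [112, 111, 85]),
   (122, [1357], [112, 111, 87]),
   (123, [1549], [112, 111, 89]),
   (124, [2061], [112, 111, 91]),
   (125, [2093], [112, 111, 93]),
   (126, [2381], [112, 111, 95]),
   (127, [3213], [112, 111, 99]),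
   (128, [525], [121, 27]),
   (129, [1197], [124, 28]),
   (130, [3629], [126, 30]),
   (131, [3469], [127, 29]),
   (132, [73, 521, 105, 969, 585], [110, 111, 129, 31, 112, 1, 47, 118]),
   (133, [72, 585, 105, 969], [112, 31, 111, 33, 10, 19]),
   (134, [585, 105, 969], [110, 112, 37, 130, 111, 43, 133, 132, 4, 64, 119]),
   (135, [105, 969], [31, 111, 112, 134, 17, 16]),
   (136, [41, 584, 968, 104], [110, 129, 31, 111, 112, 123, 11, 48, 14, 114]),
   (137, [41, 968, 104, 585], [36, 112, 37, 111, 3, 22]),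
   (138, [968, 585, 104], [36, 111, 125, 112, 37, 137, 6, 26, 15]),
   (139, [521, 584, 260, 72, 40], [130, 113, 63]),
   (140, [104, 968], [110, 33, 112, 111, 37, 71, 138, 136, 7, 12, 139]),
   (141, [72, 584, 105, 968], [109, 128, 120, 51]),
   (142, [584, 968], [31, 111, 34, 112, 33, 140, 17, 25, 5, 141]),
   (143, [72, 968], [31, 112, 111, 127, 142, 140, 10, 24, 18]),
   (144, [40, 968], [32, 111, 112, 37, 143, 142, 140, 8, 4]),
   (145, [128, 968, 73, 105, 585], [131, 117, 68]),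
   (146, [968], [111, 109, 140, 142, 143, 144, 39, 145]),
   (147, [105], [146, 135]),
   (148, [73, 585], [109, 147, 146, 128, 116, 52]),
   (149, [72, 585], [122, 147, 111, 146, 112, 31, 121, 21, 9, 23]),
   (150, [585], [148, 149]),
   (151, [321], [150, 109, 146, 75]),
   (152, [128, 72], [147, 150, 146, 131, 67, 115]),
   (153, [129], [151, 109, 147, 146, 150, 112, 111, 82, 39, 20]),
   (154, [72], [153, 152]),
   (155, [40], [154, 33, 150, 147, 112, 7]),
   (156, [397], [154, 150, 84]),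
   (157, [521], [155, 31, 111, 112, 147, 150, 14]),
   (158, [], [156, 157, 111, 112, 147, 146, 150, 13])]

end Pool.Agent.BG.Cert
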