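import Pool.Agent.Lib.MP_291637_al_h3.Rules

/-!
# Clauses from rules
-/

set_option autoImplicit false

namespace Pool.Agent.BG.Cert

variable {V : Type*} {f : V → V → Bool}

/-- The atom of the label of the structure `i` at the node `v` of the side `s`. -/
def aL (L : Lab) (s i v : ℕ) : ℕ :=
  Nat.add (Nat.mul 16 (L.rn i v)) (Nat.add (Nat.mul 2 (Nat.mod i 3)) (Nat.mod s 2))

/-- The atom saying that the node `v` fixes the base point of the side `s`. -/
def aE (s v : ℕ) : ℕ := Nat.add (Nat.mul 16 v) (Nat.add 6 (Nat.mod s 2))

/-- The atom of the colour of the pair of the base point and the node `v` of the second side. -/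
def aF (v : ℕ) : ℕ := Nat.add (Nat.mul 16 v) 8

/-- positive literal -/
def ps (a : ℕ) : ℕ := Nat.mul 2 a

/-- negative literal -/
def ng (a : ℕ) : ℕ := Nat.add (Nat.mul 2 a) 1

/-- the base point of a side -/
def bp (s : ℕ) (x z : V) : V := if s % 2 = 0 then x else z

open Classical in
/-- The valuation. -/
noncomputable def val (t : Tab) (S : ℕ → Str f) (x z : V) (b : Bool) (a : ℕ) : Bool :=
  if a % 16 < 6 then (S (a % 16 / 2)).h (t.pt S (a / 16) (bp a x z))
  else if a % 16 < 8 then decide (t.pt S (a / 16) (bp a x z) = bp a x z)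
  else f x (t.pt S (a / 16) z) == b

/-- The literal is true. -/
def litT (v : ℕ → Bool) (l : ℕ) : Prop := v (l / 2) = (l % 2 == 0)

/-- The clause is true. -/
def satC (v : ℕ → Bool) (c : List ℕ) : Prop := ∃ l ∈ c, litT v l

theorem litT_ps (v : ℕ → Bool) (a : ℕ) : litT v (ps a) ↔ v a = true := by
  have h1 : ps a / 2 = a := by change 2 * a / 2 = a; omega
  have h2 : ps a % 2 = 0 := by change 2 * a % 2 = 0; omega
  rw [litT, h1, h2]; simp

theorem litT_ng (v : ℕ → Bool) (a : ℕ) : litT v (ng a) ↔ v a = false := by
  have h1 : ng a / 2 = a := by change (2 * a + 1) / 2 = a; omega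
  have h2 : ng a % 2 = 1 := by change (2 * a + 1) % 2 = 1; omega
  rw [litT, h1, h2]; simp

theorem satC_cons (v : ℕ → Bool) (l : ℕ) (c : List ℕ) :
    satC v (l :: c) ↔ litT v l ∨ satC v c := by
  simp [satC]

theorem satC_nil (v : ℕ → Bool) : ¬ satC v [] := by simp [satC]

theorem bp_add (s k : ℕ) (x z : V) (h : k % 2 = 0) : bp (k + s) x z = bp s x z := by
  unfold bp
  have : (k + s) % 2 = s % 2 := by omega
  rw [this]

theorem val_L {t : Tab} {L : Lab} {S : ℕ → Str f} (x z : V) (b : Bool)
    (hc : ∀ i v, v < t.n → ∀ y, (S (i % 3)).h (t.pt S (L.rn i v) y) = (S (i % 3)).h (t.pt S v y))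
    (s i v : ℕ) (hv : v < t.n) :
    val t S x z b (aL L s i v) = (S (i % 3)).h (t.pt S v (bp s x z)) := by
  have e : aL L s i v = 16 * L.rn i v + (2 * (i % 3) + s % 2) := rfl
  have h1 : aL L s i v % 16 = 2 * (i % 3) + s % 2 := by rw [e]; omega
  have h2 : aL L s i v / 16 = L.rn i v := by rw [e]; omega
  have h3 : (2 * (i % 3) + s % 2) / 2 = i % 3 := by omega
  have h4 : bp (aL L s i v) x z = bp s x z := by
    unfold bp
    have : aL L s i v % 2 = s % 2 := by rw [e]; omega
    rw [this]
  rw [val, h1, if_pos (by omega), h2, h3, h4, hc i v hv]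

theorem val_E (t : Tab) (S : ℕ → Str f) (x z : V) (b : Bool) (s v : ℕ) :
    val t S x z b (aE s v) = true ↔ t.pt S v (bp s x z) = bp s x z := by
  have e : aE s v = 16 * v + (6 + s % 2) := rfl
  have h1 : aE s v % 16 = 6 + s % 2 := by rw [e]; omega
  have h2 : aE s v / 16 = v := by rw [e]; omega
  have h4 : bp (aE s v) x z = bp s x z := by
    unfold bp
    have : aE s v % 2 = s % 2 := by rw [e]; omega
    rw [this]
  rw [val, h1, if_neg (by omega), if_pos (by omega), h2, h4]
  simp

theorem val_F (t : Tab) (S : ℕ → Str f) (x z : V) (b : Bool) (v : ℕ) :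
    val t S x z b (aF v) = (f x (t.pt S v z) == b) := by
  have e : aF v = 16 * v + 8 := rfl
  have h1 : aF v % 16 = 8 := by rw [e]; omega
  have h2 : aF v / 16 = v := by rw [e]; omega
  rw [val, h1, if_neg (by omega), if_neg (by omega), h2]

/-! ### Rule instances -/

/-- The two clauses saying that two atoms are equivalent unless a literal of `pre` holds. -/
def iffC (pre : List ℕ) (a b : ℕ) : List (List ℕ) := [ps a :: ng b :: pre, ng a :: ps b :: pre]

theorem iffC_sound {v : ℕ → Bool} {pre : List ℕ} {a b : ℕ} (h : ¬ satC v pre → v a = v b) :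
    ∀ c ∈ iffC pre a b, satC v c := by
  intro c hc
  simp only [iffC, List.mem_cons, List.not_mem_nil, or_false] at hc
  by_cases hp : satC v pre
  · rcases hc with rfl | rfl <;> simp [satC_cons, hp]
  · have := h hp
    rcases hc with rfl | rfl
    · rw [satC_cons, satC_cons, litT_ps, litT_ng, ← this]
      cases v a <;> simp
    · rw [satC_cons, satC_cons, litT_ps, litT_ng, ← this]
      cases v a <;> simp

/-- Instances of rules. -/
inductive Ins
  /-- a fixed point: labels -/
  | el (s i : ℕ) (u : List ℕ) (w : ℕ)
  /-- a fixed point on the first side: colours -/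
  | efx (u : List ℕ) (w : ℕ)
  /-- a fixed point on the second side: colours -/
  | efz (u : List ℕ) (w : ℕ)
  /-- composition of fixing words -/
  | ecl (s : ℕ) (u : List ℕ) (w : ℕ)
  /-- inverse of a fixing word -/
  | einv (s : ℕ) (u : List ℕ)
  /-- involutions have no fixed points -/
  | fpf (s i : ℕ) (u : List ℕ)
  /-- no crossing cycles of length four -/
  | c4 (s i j : ℕ) (u : List ℕ)
  /-- not rainbow -/
  | nr (s i j v : ℕ)
  /-- the relation between a structure and a conjugate -/
  | idr (s i j : ℕ) (h : List ℕ) (u : List ℕ) (bs : List Bool) (w : ℕ)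
  /-- flatness -/
  | mv (i : ℕ) (u : List ℕ) (w : ℕ)

/-- A walk of half involutions: the list `bs` says at which halves the point moves; the output is
the end and the negated conditions. -/
def hw (t : Tab) (L : Lab) (s : ℕ) : List ℕ → List Bool → ℕ → ℕ × List ℕ
  | [], _, v => (v, [])
  | i :: w, bs, v =>
    if Nat.blt i 3 then hw t L s w bs (t.get i v)
    else match bs with
      | [] => (t.n, [])
      | true :: bs =>
        let r := hw t L s w bs (t.get i v)
        (r.1, (if Nat.blt i 6 then ng (aL L s i v) else ps (aL L s i v)) :: r.2)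
      | false :: bs =>
        let r := hw t L s w bs v
        (r.1, (if Nat.blt i 6 then ps (aL L s i v) else ng (aL L s i v)) :: r.2)

/-- All words below three. -/
def lt3 (w : List ℕ) : Bool := w.all fun i => Nat.blt i 3

/-- membership of a pair -/
def mem2 (i j : ℕ) : List (ℕ × ℕ) → Bool
  | [] => false
  | a :: l => (Nat.beq a.1 i && Nat.beq a.2 j) || mem2 i j l

/-- The clauses of an instance. -/
def gen (t : Tab) (L : Lab) (nrp : List (ℕ × ℕ)) : Ins → List (List ℕ)
  | .el s i u w =>
    if Nat.blt w t.n then iffC [ng (aE s w)] (aL L s i (t.walk u 0)) (aL L s i (t.walk u w)) else []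
  | .efx u w =>
    if Nat.blt w t.n then iffC [ng (aE 0 (t.walk u 0))] (aF (t.walk u w)) (aF w) else []
  | .efz u w =>
    if Nat.blt w t.n then iffC [ng (aE 1 w)] (aF (t.walk u w)) (aF (t.walk u 0)) else []
  | .ecl s u w =>
    if Nat.blt w t.n then
      [[ng (aE s (t.walk u 0)), ng (aE s w), ps (aE s (t.walk u w))]] else []
  | .einv s u => [[ng (aE s (t.walk u 0)), ps (aE s (t.walk u.reverse 0))]]
  | .fpf s i u => [[ng (aE s (t.walk (u ++ i :: u.reverse) 0))]]
  | .c4 s i j u =>
    if mem2 i j nrp then
      iffC [ng (aE s (t.walk (u ++ i :: j :: i :: j :: u.reverse) 0))]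
        (aL L s i (t.walk u 0)) (aL L s i (t.get j (t.walk u 0))) else []
  | .nr s i j v =>
    if Nat.blt v t.n && mem2 i j nrp then
      iffC [ps (aL L s i v), ng (aL L s i (t.get j v))] (aL L s j v) (aL L s j (t.get i v)) ++
      iffC [ng (aL L s i v), ps (aL L s i (t.get j v))] (aL L s j v) (aL L s j (t.get i v)) else []
  | .idr s i j h u bs w =>
    if Nat.blt w t.n && Nat.blt i 3 && Nat.blt j 3 then
      let r := hw t L s (sand i h j) bs (t.walk u 0)
      if Nat.beq (t.walk u w) r.1 then [ps (aE s w) :: r.2] else []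
    else []
  | .mv i u w =>
    if Nat.blt w t.n then
      let v := t.walk u w
      let w' := t.walk u.reverse (t.get i v)
      iffC [ps (aL L 0 i (t.walk u 0)), ng (aL L 1 i v)] (aF w) (aF w') ++
      iffC [ng (aL L 0 i (t.walk u 0)), ps (aL L 1 i v)] (aF w) (aF w')
    else []

/-- The data and hypotheses of the rules. -/
structure Ctx (t : Tab) (L : Lab) (S : ℕ → Str f) (nrp : List (ℕ × ℕ)) : Prop where
  hf : ∀ x y, f x y = f y x
  ht : t.Sound S
  hc : ∀ i v, v < t.n → ∀ y, (S (i % 3)).h (t.pt S (L.rn i v) y) = (S (i % 3)).h (t.pt S v y)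
  hnr : ∀ a ∈ nrp, NR (S (a.1 % 3)) (S (a.2 % 3))

theorem mem2_spec {i j : ℕ} {l : List (ℕ × ℕ)} (h : mem2 i j l = true) : (i, j) ∈ l := by
  induction l with
  | nil => simp [mem2] at h
  | cons a l ih =>
    simp only [mem2, Bool.or_eq_true, Bool.and_eq_true] at h
    rcases h with ⟨h1, h2⟩ | h
    · have h1' : a.1 = i := Nat.eq_of_beq_eq_true h1
      have h2' : a.2 = j := Nat.eq_of_beq_eq_true h2
      obtain ⟨a1, a2⟩ := a
      simp only at h1' h2'
      subst h1' h2'
      simp
    · exact List.mem_cons_of_mem _ (ih h)

theorem not_satC_ng {v : ℕ → Bool} {a : ℕ} (h : ¬ satC v [ng a]) : v a = true := by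
  rw [satC_cons, litT_ng, not_or] at h
  simpa using h.1

section Sound

variable {t : Tab} {L : Lab} {S : ℕ → Str f} {nrp : List (ℕ × ℕ)} (C : Ctx t L S nrp)
  (x z : V) (b : Bool)

include C

theorem hw_sound (s : ℕ) (w : List ℕ) (bs : List Bool) (v : ℕ)
    (hv : v < t.n) (hlt : (hw t L s w bs v).1 < t.n)
    (hcond : ¬ satC (val t S x z b) (hw t L s w bs v).2) :
    hrun S w (t.pt S v (bp s x z)) = t.pt S (hw t L s w bs v).1 (bp s x z) := by
  induction w generalizing bs v with
  | nil => rfl
  | cons i w ih =>
    change hrun S w (code S i (t.pt S v (bp s x z))) = _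
    by_cases hi : i < 3
    · have e : hw t L s (i :: w) bs v = hw t L s w bs (t.get i v) := by
        cases bs with
        | nil => simp [hw, blt_of_lt hi]
        | cons b0 bs => cases b0 <;> simp [hw, blt_of_lt hi]
      rw [e] at hlt hcond ⊢
      rw [code, if_pos hi, C.ht.step i v hv]
      exact ih _ _ (C.ht.lt i v hv) hlt hcond
    · have hi' : ¬ (Nat.blt i 3 = true) := fun h => hi (lt_of_blt h)
      cases bs with
      | nil =>
        have e : hw t L s (i :: w) [] v = (t.n, []) := by
          simp [hw, hi']
        rw [e] at hlt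
        exact absurd hlt (lt_irrefl _)
      | cons b0 bs =>
        have hval := val_L x z b C.hc s i v hv
        cases b0 with
        | true =>
          have e : hw t L s (i :: w) (true :: bs) v =
              ((hw t L s w bs (t.get i v)).1,
                (if Nat.blt i 6 then ng (aL L s i v) else ps (aL L s i v)) ::
                  (hw t L s w bs (t.get i v)).2) := by
            rw [hw, if_neg hi']
          rw [e] at hlt hcond ⊢
          rw [satC_cons, not_or] at hcond
          have hlab : (S (i % 3)).h (t.pt S v (bp s x z)) = decide (i < 6) := by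
            have h1 := hcond.1
            by_cases h6 : i < 6
            · rw [if_pos (blt_of_lt h6), litT_ng, hval] at h1
              simpa [h6] using h1
            · rw [if_neg (fun h => h6 (lt_of_blt h)), litT_ps, hval] at h1
              simpa [h6] using h1
          rw [code, if_neg hi, Str.half_of_eq _ hlab, C.ht.step i v hv]
          exact ih _ _ (C.ht.lt i v hv) hlt hcond.2
        | false =>
          have e : hw t L s (i :: w) (false :: bs) v =
              ((hw t L s w bs v).1,
                (if Nat.blt i 6 then ps (aL L s i v) else ng (aL L s i v)) ::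
                  (hw t L s w bs v).2) := by
            rw [hw, if_neg hi']
          rw [e] at hlt hcond ⊢
          rw [satC_cons, not_or] at hcond
          have hlab : (S (i % 3)).h (t.pt S v (bp s x z)) ≠ decide (i < 6) := by
            have h1 := hcond.1
            by_cases h6 : i < 6
            · rw [if_pos (blt_of_lt h6), litT_ps, hval] at h1
              simpa [h6] using h1
            · rw [if_neg (fun h => h6 (lt_of_blt h)), litT_ng, hval] at h1
              simpa [h6] using h1
          rw [code, if_neg hi, Str.half_of_ne _ hlab]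
          exact ih _ _ hv hlt hcond.2

theorem E_of_fix {s : ℕ} {u : List ℕ} (h : run S u (bp s x z) = bp s x z) :
    val t S x z b (aE s (t.walk u 0)) = true := by
  rw [val_E, C.ht.run_zero, h]

theorem fix_of_E {s : ℕ} {u : List ℕ} (h : val t S x z b (aE s (t.walk u 0)) = true) :
    run S u (bp s x z) = bp s x z := by
  rwa [val_E, C.ht.run_zero] at h

theorem gen_sound (g : Ins) : ∀ c ∈ gen t L nrp g, satC (val t S x z b) c := by
  cases g with
  | el s i u w =>
    intro c hc
    rw [gen] at hc
    split_ifs at hc with hw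
    swap
    · simp at hc
    refine iffC_sound (fun hE => ?_) c hc
    have hwn := lt_of_blt hw
    have h1 := not_satC_ng hE
    rw [val_E] at h1
    rw [val_L x z b C.hc _ _ _ (C.ht.walk_lt _ C.ht.npos),
      val_L x z b C.hc _ _ _ (C.ht.walk_lt _ hwn), C.ht.run_zero, ← C.ht.run_pt _ hwn, h1]
  | efx u w =>
    intro c hc
    rw [gen] at hc
    split_ifs at hc with hw
    swap
    · simp at hc
    refine iffC_sound (fun hE => ?_) c hc
    have hwn := lt_of_blt hw
    have h1 := fix_of_E C x z b (not_satC_ng hE)
    rw [val_F, val_F, ← C.ht.run_pt _ hwn]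
    have h2 := run_f S u x (t.pt S w z)
    change run S u x = x at h1
    rw [h1] at h2
    rw [h2]
  | efz u w =>
    intro c hc
    rw [gen] at hc
    split_ifs at hc with hw
    swap
    · simp at hc
    refine iffC_sound (fun hE => ?_) c hc
    have hwn := lt_of_blt hw
    have h1 := not_satC_ng hE
    rw [val_E] at h1
    change t.pt S w z = z at h1
    rw [val_F, val_F, ← C.ht.run_pt _ hwn, h1, C.ht.run_zero]
  | ecl s u w =>
    intro c hc
    rw [gen] at hc
    split_ifs at hc with hw
    swap
    · simp at hc
    have hwn := lt_of_blt hw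
    simp only [List.mem_cons, List.not_mem_nil, or_false] at hc
    subst hc
    simp only [satC_cons, litT_ps, litT_ng]
    by_cases h1 : val t S x z b (aE s (t.walk u 0)) = true
    swap
    · left; simpa using h1
    by_cases h2 : val t S x z b (aE s w) = true
    swap
    · right; left; simpa using h2
    right; right; left
    have h3 := fix_of_E C x z b h1
    rw [val_E] at h2 ⊢
    rw [← C.ht.run_pt _ hwn, h2, h3]
  | einv s u =>
    intro c hc
    rw [gen] at hc
    simp only [List.mem_cons, List.not_mem_nil, or_false] at hc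
    subst hc
    simp only [satC_cons, litT_ps, litT_ng]
    by_cases h1 : val t S x z b (aE s (t.walk u 0)) = true
    swap
    · left; simpa using h1
    right; left
    have h3 := fix_of_E C x z b h1
    apply E_of_fix C
    conv_lhs => rw [← h3]
    rw [run_reverse]
  | fpf s i u =>
    intro c hc
    rw [gen] at hc
    simp only [List.mem_cons, List.not_mem_nil, or_false] at hc
    subst hc
    simp only [satC_cons, litT_ng]
    left
    by_contra h1
    have h3 := fix_of_E C x z b (by simpa using h1)
    rw [run_append] at h3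
    change run S u.reverse ((S (i % 3)).c (run S u _)) = _ at h3
    have h4 := congrArg (run S u) h3
    rw [run_reverse'] at h4
    exact (S (i % 3)).fpf _ h4
  | c4 s i j u =>
    intro c hc
    rw [gen] at hc
    split_ifs at hc with hm
    swap
    · simp at hc
    refine iffC_sound (fun hE => ?_) c hc
    have hNR := C.hnr _ (mem2_spec hm)
    simp only at hNR
    have h3 := fix_of_E C x z b (not_satC_ng hE)
    rw [run_append] at h3
    have h4 := congrArg (run S u) h3
    change run S u (run S u.reverse ((S (j % 3)).c ((S (i % 3)).c ((S (j % 3)).c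
      ((S (i % 3)).c (run S u (bp s x z))))))) = _ at h4
    rw [run_reverse'] at h4
    rw [val_L x z b C.hc _ _ _ (C.ht.walk_lt _ C.ht.npos),
      val_L x z b C.hc _ _ _ (C.ht.lt _ _ (C.ht.walk_lt _ C.ht.npos)),
      ← C.ht.step _ _ (C.ht.walk_lt _ C.ht.npos), C.ht.run_zero]
    by_contra hne
    refine no_fix hNR (Ne.symm hne) ?_
    have h5 := congrArg (S (j % 3)).c h4
    rw [Str.cc] at h5
    have h6 := congrArg (S (i % 3)).c h5
    rw [Str.cc] at h6
    have h7 := congrArg (S (j % 3)).c h6
    rw [Str.cc] at h7
    exact h7.symm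
  | nr s i j v =>
    intro c hc
    rw [gen] at hc
    split_ifs at hc with hm
    swap
    · simp at hc
    rw [Bool.and_eq_true] at hm
    have hv := lt_of_blt hm.1
    have hNR := C.hnr _ (mem2_spec hm.2)
    simp only at hNR
    have key : val t S x z b (aL L s i v) ≠ val t S x z b (aL L s i (t.get j v)) →
        val t S x z b (aL L s j v) = val t S x z b (aL L s j (t.get i v)) := by
      intro hne
      rw [val_L x z b C.hc _ _ _ hv, val_L x z b C.hc _ _ _ (C.ht.lt _ _ hv),
        ← C.ht.step _ _ hv] at hne ⊢
      exact ((hNR (t.pt S v (bp s x z))).resolve_left (Ne.symm hne)).symm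
    rw [List.mem_append] at hc
    rcases hc with hc | hc
    · refine iffC_sound (fun hE => key ?_) c hc
      simp only [satC_cons, litT_ps, litT_ng, not_or] at hE
      intro e
      rw [e] at hE
      revert hE
      cases val t S x z b (aL L s i (t.get j v)) <;> simp
    · refine iffC_sound (fun hE => key ?_) c hc
      simp only [satC_cons, litT_ps, litT_ng, not_or] at hE
      intro e
      rw [e] at hE
      revert hE
      cases val t S x z b (aL L s i (t.get j v)) <;> simp
  | idr s i j h u bs w =>
    intro c hc
    rw [gen] at hc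
    split_ifs at hc with hm
    swap
    · simp at hc
    simp only at hc
    split_ifs at hc with he
    swap
    · simp at hc
    simp only [Bool.and_eq_true] at hm
    have hwn := lt_of_blt hm.1.1
    have hi := lt_of_blt hm.1.2
    have hj := lt_of_blt hm.2
    simp only [List.mem_cons, List.not_mem_nil, or_false] at hc
    subst hc
    rw [satC_cons, litT_ps]
    by_cases hcond : satC (val t S x z b) (hw t L s (sand i h j) bs (t.walk u 0)).2
    · exact Or.inr hcond
    left
    have he' : t.walk u w = (hw t L s (sand i h j) bs (t.walk u 0)).1 :=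
      Nat.eq_of_beq_eq_true he
    have h1 := hw_sound C x z b s (sand i h j) bs (t.walk u 0) (C.ht.walk_lt _ C.ht.npos)
      (by rw [← he']; exact C.ht.walk_lt _ hwn) hcond
    rw [hrun_sand C.hf S hi hj, ← he', C.ht.run_zero, ← C.ht.run_pt _ hwn] at h1
    rw [val_E]
    exact (run_inj S u h1).symm
  | mv i u w =>
    intro c hc
    rw [gen] at hc
    split_ifs at hc with hw
    swap
    · simp at hc
    have hwn := lt_of_blt hw
    have hvn := C.ht.walk_lt u hwn
    have key : val t S x z b (aL L 0 i (t.walk u 0)) ≠ val t S x z b (aL L 1 i (t.walk u w)) →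
        val t S x z b (aF w) = val t S x z b (aF (t.walk u.reverse (t.get i (t.walk u w)))) := by
      intro hne
      rw [val_L x z b C.hc _ _ _ (C.ht.walk_lt _ C.ht.npos), val_L x z b C.hc _ _ _ hvn,
        C.ht.run_zero, ← C.ht.run_pt _ hwn] at hne
      change (S (i % 3)).h (run S u x) ≠ (S (i % 3)).h (run S u (t.pt S w z)) at hne
      rw [val_F, val_F, ← C.ht.run_pt _ (C.ht.lt _ _ hvn), ← C.ht.step _ _ hvn,
        ← C.ht.run_pt _ hwn]
      have h1 := (S (i % 3)).flat' C.hf hne
      have h2 := run_f S u x (run S u.reverse ((S (i % 3)).c (run S u (t.pt S w z))))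
      rw [run_reverse'] at h2
      rw [← h2, h1, run_f S u]
    simp only at hc
    rw [List.mem_append] at hc
    rcases hc with hc | hc
    · refine iffC_sound (fun hE => key ?_) c hc
      simp only [satC_cons, litT_ps, litT_ng, not_or] at hE
      intro e
      rw [e] at hE
      revert hE
      cases val t S x z b (aL L 1 i (t.walk u w)) <;> simp
    · refine iffC_sound (fun hE => key ?_) c hc
      simp only [satC_cons, litT_ps, litT_ng, not_or] at hE
      intro e
      rw [e] at hE
      revert hE
      cases val t S x z b (aL L 1 i (t.walk u w)) <;> simp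

end Sound

end Pool.Agent.BG.Cert
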