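import Pool.Agent.Lib.MP_291637_al_h3.Coset

/-!
# Rules

Clauses on the labels of the points of two orbits and on the colours between them. A clause is a
list of literals; the literal `2 * a` says that the atom `a` is true, the literal `2 * a + 1` says that
it is false.
-/

set_option autoImplicit false

namespace Pool.Agent.BG.Cert

variable {V : Type*} {f : V → V → Bool}

/-! ### Words with half involutions -/

/-- the permutation of a code: `i` is the full involution, `i + 3` and `i + 6` are the halves -/
def code (S : ℕ → Str f) (i : ℕ) (y : V) : V :=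
  if i < 3 then (S (i % 3)).c y else (S (i % 3)).half (decide (i < 6)) y

/-- The action of a word of codes; the first code acts first. -/
def hrun (S : ℕ → Str f) : List ℕ → V → V
  | [], y => y
  | i :: w, y => hrun S w (code S i y)

theorem code_code (S : ℕ → Str f) (i : ℕ) (y : V) : code S i (code S i y) = y := by
  unfold code
  split_ifs
  · rw [Str.cc]
  · rw [Str.half_half]

theorem code_f (hf : ∀ x y, f x y = f y x) (S : ℕ → Str f) (i : ℕ) (x y : V) :
    f (code S i x) (code S i y) = f x y := by
  unfold code
  split_ifs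
  · rw [(S (i % 3)).aut]
  · exact Str.half_mem _ hf _ x y

theorem hrun_append (S : ℕ → Str f) (a b : List ℕ) (y : V) :
    hrun S (a ++ b) y = hrun S b (hrun S a y) := by
  induction a generalizing y with
  | nil => rfl
  | cons i a ih => exact ih _

theorem hrun_reverse (S : ℕ → Str f) (a : List ℕ) (y : V) :
    hrun S a.reverse (hrun S a y) = y := by
  induction a generalizing y with
  | nil => rfl
  | cons i a ih =>
    rw [List.reverse_cons, hrun_append]
    change code S i (hrun S a.reverse (hrun S a (code S i y))) = y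
    rw [ih, code_code]

theorem hrun_reverse' (S : ℕ → Str f) (a : List ℕ) (y : V) :
    hrun S a (hrun S a.reverse y) = y := by
  have := hrun_reverse S a.reverse y
  rwa [List.reverse_reverse] at this

theorem hrun_f (hf : ∀ x y, f x y = f y x) (S : ℕ → Str f) (a : List ℕ) (x y : V) :
    f (hrun S a x) (hrun S a y) = f x y := by
  induction a generalizing x y with
  | nil => rfl
  | cons i a ih =>
    change f (hrun S a _) (hrun S a _) = _
    rw [ih, code_f hf]

/-- A word of codes as a permutation. -/
def hrunE (S : ℕ → Str f) (a : List ℕ) : Equiv.Perm V :=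
  ⟨hrun S a, hrun S a.reverse, hrun_reverse S a, hrun_reverse' S a⟩

theorem hrunE_mem (hf : ∀ x y, f x y = f y x) (S : ℕ → Str f) (a : List ℕ) : hrunE S a ∈ Aut f :=
  hrun_f hf S a

/-- Two structures generate a group in which the product of the involutions has order dividing
four. -/
theorem four (hf : ∀ x y, f x y = f y x) (A B : Str f) (y : V) :
    B.c (A.c (B.c (A.c (B.c (A.c (B.c (A.c y))))))) = y := by
  have hg : B.perm * A.perm * B.perm ∈ Aut f :=
    mul_mem (mul_mem B.perm_mem A.perm_mem) B.perm_mem
  have h : B.c (A.c (B.c (A.c y))) = A.c (B.c (A.c (B.c y))) :=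
    A.commute_c_of_cut hf hg (fun x => h_qpq hf A B x) y
  rw [h, A.cc, B.cc, A.cc, B.cc]

/-- the conjugate of the structure `S j` by a word -/
def cj (hf : ∀ x y, f x y = f y x) (S : ℕ → Str f) (h : List ℕ) (j : ℕ) : Str f :=
  (S (j % 3)).conj (hrunE S h)⁻¹ (inv_mem (hrunE_mem hf S h))

theorem cj_c (hf : ∀ x y, f x y = f y x) (S : ℕ → Str f) (h : List ℕ) (j : ℕ) (y : V) :
    (cj hf S h j).c y = hrun S h.reverse ((S (j % 3)).c (hrun S h y)) := rfl

theorem cj_h (hf : ∀ x y, f x y = f y x) (S : ℕ → Str f) (h : List ℕ) (j : ℕ) (y : V) :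
    (cj hf S h j).h y = (S (j % 3)).h (hrun S h y) := rfl

/-- the word of the relation between a structure and a conjugate -/
def sand (i : ℕ) (h : List ℕ) (j : ℕ) : List ℕ :=
  (i :: (h ++ j :: h.reverse)) ++ ((i :: (h ++ j :: h.reverse)) ++
    ((i :: (h ++ j :: h.reverse)) ++ (i :: (h ++ j :: h.reverse))))

theorem hrun_sand (hf : ∀ x y, f x y = f y x) (S : ℕ → Str f) {i j : ℕ} (hi : i < 3) (hj : j < 3)
    (h : List ℕ) (y : V) : hrun S (sand i h j) y = y := by
  have key : ∀ y, hrun S (i :: (h ++ j :: h.reverse)) y =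
      (cj hf S h j).c ((S (i % 3)).c y) := by
    intro y
    rw [cj_c]
    change hrun S (h ++ j :: h.reverse) (code S i y) = _
    rw [hrun_append]
    change hrun S h.reverse (code S j (hrun S h (code S i y))) = _
    unfold code
    rw [if_pos hi, if_pos hj]
  unfold sand
  rw [hrun_append, hrun_append, hrun_append, key, key, key, key]
  exact four hf _ _ y

theorem run_eq_hrun (S : ℕ → Str f) (w : List ℕ) (hw : ∀ i ∈ w, i < 3) (y : V) :
    run S w y = hrun S w y := by
  induction w generalizing y with
  | nil => rfl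
  | cons i w ih =>
    change run S w _ = hrun S w (code S i y)
    unfold code
    rw [if_pos (hw i (by simp))]
    exact ih (fun j hj => hw j (by simp [hj])) _

/-- The label of a structure is invariant under `B A B`. -/
def tlink (i : ℕ) (u : List ℕ) (j : ℕ) : List ℕ :=
  (u ++ j :: u.reverse) ++ i :: (u ++ j :: u.reverse)

theorem tlink_h (hf : ∀ x y, f x y = f y x) (S : ℕ → Str f) (i : ℕ) (u : List ℕ) (j : ℕ) (y : V) :
    (S (i % 3)).h (run S (tlink i u j) y) = (S (i % 3)).h y := by
  have key : ∀ y, run S (u ++ j :: u.reverse) y =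
      ((S (j % 3)).conj (runE S u)⁻¹ (inv_mem (runE_mem S u))).c y := by
    intro y
    rw [run_append]
    rfl
  unfold tlink
  rw [run_append]
  change (S (i % 3)).h (run S (u ++ j :: u.reverse) ((S (i % 3)).c _)) = _
  rw [key, key]
  exact h_qpq hf _ _ y

/-! ### Label tables -/

/-- A table of representatives of the labels: the entries contain the representative, the number of
a link and a rank. -/
structure Lab where
  A : ℕ
  links : List (ℕ × List ℕ)

namespace Lab

/-- the entry -/
def e (L : Lab) (i v : ℕ) : ℕ :=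
  Nat.mod (Nat.shiftRight L.A (Nat.mul 20 (Nat.add (Nat.mul 3 v) (Nat.mod i 3)))) 1048576

/-- the representative -/
def rn (L : Lab) (i v : ℕ) : ℕ := Nat.mod (L.e i v) 4096

/-- the number of the link -/
def lk (L : Lab) (i v : ℕ) : ℕ := Nat.mod (Nat.div (L.e i v) 4096) 16

/-- the rank -/
def rk (L : Lab) (i v : ℕ) : ℕ := Nat.div (L.e i v) 65536

/-- the link number `k` -/
def nth : List (ℕ × List ℕ) → ℕ → ℕ × List ℕ
  | [], _ => (0, [0])
  | a :: _, 0 => a
  | _ :: l, k + 1 => nth l k

/-- check of one entry -/
def echeck (t : Tab) (L : Lab) (i v : ℕ) : Bool :=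
  Nat.beq (L.rn i v) v ||
    (let a := nth L.links (L.lk i v)
     let v' := t.walk a.2 v
     Nat.beq (Nat.mod a.1 3) i && Nat.beq (L.rn i v') (L.rn i v) && Nat.blt (L.rk i v') (L.rk i v))

/-- the whole check -/
def check (t : Tab) (L : Lab) : Bool :=
  Tab.allB t.n fun v => echeck t L 0 v && echeck t L 1 v && echeck t L 2 v

/-- The links are valid. -/
def Valid (L : Lab) (S : ℕ → Str f) : Prop :=
  ∀ a ∈ L.links, ∀ y, (S (a.1 % 3)).h (run S a.2 y) = (S (a.1 % 3)).h y

theorem nth_valid {L : Lab} {S : ℕ → Str f} (hL : L.Valid S) (k : ℕ) (y : V) :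
    (S ((nth L.links k).1 % 3)).h (run S (nth L.links k).2 y) = (S ((nth L.links k).1 % 3)).h y := by
  unfold Valid at hL
  revert hL
  generalize L.links = l
  intro hL
  induction l generalizing k with
  | nil => exact Str.hc _ _
  | cons a l ih =>
    cases k with
    | zero => exact hL a (by simp) y
    | succ k => exact ih k (fun b hb => hL b (by simp [hb]))

theorem rn_mod (L : Lab) (i v : ℕ) : L.rn (i % 3) v = L.rn i v := by
  unfold rn e
  have : Nat.mod (i % 3) 3 = Nat.mod i 3 := Nat.mod_mod i 3
  rw [this]

theorem check_sound {t : Tab} {L : Lab} {S : ℕ → Str f} (hc : check t L = true)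
    (ht : t.Sound S) (hL : L.Valid S) (i v : ℕ) (hv : v < t.n) (y : V) :
    (S (i % 3)).h (t.pt S (L.rn i v) y) = (S (i % 3)).h (t.pt S v y) := by
  have main : ∀ r, ∀ i, i < 3 → ∀ v, v < t.n → L.rk i v < r →
      (S i).h (t.pt S (L.rn i v) y) = (S i).h (t.pt S v y) := by
    intro r
    induction r with
    | zero => intro i _ v _ h; omega
    | succ r ih =>
      intro i hi v hv hr
      have h1 := Tab.allB_spec hc hv
      simp only [Bool.and_eq_true] at h1
      have h2 : echeck t L i v = true := by
        interval_cases i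
        · exact h1.1.1
        · exact h1.1.2
        · exact h1.2
      simp only [echeck, Bool.or_eq_true, Bool.and_eq_true] at h2
      rcases h2 with h2 | ⟨⟨h2, h3⟩, h4⟩
      · have : L.rn i v = v := Nat.eq_of_beq_eq_true h2
        rw [this]
      · have h2' : (nth L.links (L.lk i v)).1 % 3 = i := Nat.eq_of_beq_eq_true h2
        have h3' := Nat.eq_of_beq_eq_true h3
        have h4' := lt_of_blt h4
        have h5 := nth_valid hL (L.lk i v) (t.pt S v y)
        rw [h2', ht.run_pt _ hv] at h5
        rw [← h5, ← h3']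
        exact ih i hi _ (ht.walk_lt _ hv) (by omega)
  have h6 := main (L.rk (i % 3) v + 1) (i % 3) (Nat.mod_lt _ (by norm_num)) v hv (by omega)
  rw [rn_mod] at h6
  exact h6

end Lab

end Pool.Agent.BG.Cert
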